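import Mathlib

/-!
# MP_9e452d_al: counting points on a conic over a finite field
-/

set_option autoImplicit false

namespace Pool.Agent.SpreadPGL

variable {F : Type*} [Field F]

/-- the form `- det` of the traceless matrix `(z0, z1; z2, -z0)` -/
def D (z : Fin 3 → F) : F := z 0 ^ 2 + z 1 * z 2

/-- the trace of the product of two traceless matrices -/
def B (a z : Fin 3 → F) : F := 2 * a 0 * z 0 + a 1 * z 2 + a 2 * z 1

/-- representatives of the points of the conic `D = 0` -/
def cp : Option F → (Fin 3 → F)
  | none => ![0, 1, 0]
  | some t => ![t, -t ^ 2, 1]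

@[simp] theorem B_cp_none (a : Fin 3 → F) : B a (cp none) = a 2 := by
  simp [B, cp]

@[simp] theorem B_cp_some (a : Fin 3 → F) (t : F) : B a (cp (some t)) = 2 * a 0 * t + a 1 - a 2 * t ^ 2 := by
  simp [B, cp]; ring

theorem D_cp (o : Option F) : D (cp o) = 0 := by
  cases o <;> simp [D, cp]

theorem B_comm (a z : Fin 3 → F) : B a z = B z a := by
  simp only [B]; ring

theorem B_self (a : Fin 3 → F) : B a a = 2 * D a := by
  simp only [B, D]; ring

theorem B_smul (c : F) (a z : Fin 3 → F) : B a (c • z) = c * B a z := by
  simp only [B, Pi.smul_apply, smul_eq_mul]; ring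

theorem D_smul (c : F) (z : Fin 3 → F) : D (c • z) = c ^ 2 * D z := by
  simp only [D, Pi.smul_apply, smul_eq_mul]; ring

theorem ne_of_nsq {c x : F} (hc : ¬ IsSquare c) : x ^ 2 ≠ c := fun h => hc ⟨x, by rw [← h, sq]⟩

theorem norm_zero {c x y : F} (hc : ¬ IsSquare c) (h : x ^ 2 - c * y ^ 2 = 0) : x = 0 ∧ y = 0 := by
  have hy : y = 0 := by
    by_contra hy
    apply hc
    refine ⟨x / y, ?_⟩
    field_simp
    linear_combination -h
  refine ⟨?_, hy⟩
  rw [hy] at h
  simpa using h

variable [Fintype F] [DecidableEq F]

theorem norm_card {c : F} (hc : ¬ IsSquare c) (κ : F) :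
    (Finset.univ.filter (fun p : F × F => p.1 ^ 2 - c * p.2 ^ 2 = κ)).card ≤ Fintype.card F + 1 := by
  classical
  have hc0 : c ≠ 0 := fun h => hc (h ▸ IsSquare.zero)
  have h1 : (Finset.univ.filter (fun p : F × F => p.1 ^ 2 - c * p.2 ^ 2 = 1)).card ≤ Fintype.card F + 1 := by
    have : Fintype.card F + 1 = (Finset.univ : Finset (Option F)).card := by
      rw [Finset.card_univ, Fintype.card_option]
    rw [this]
    refine Finset.card_le_card_of_injOn (fun p => if p.1 = -1 then none else some (p.2 / (p.1 + 1)))
      (fun _ _ => Finset.mem_univ _) ?_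
    rintro ⟨x, y⟩ h ⟨x', y'⟩ h' hh
    simp only [Finset.coe_filter, Finset.mem_univ, true_and, Set.mem_ofPred_eq] at h h' hh
    by_cases hx : x = -1
    · by_cases hx' : x' = -1
      · have e1 : c * y ^ 2 = 0 := by rw [hx] at h; linear_combination -h
        have e2 : c * y' ^ 2 = 0 := by rw [hx'] at h'; linear_combination -h'
        have e3 : y = 0 := by simpa [hc0] using e1
        have e4 : y' = 0 := by simpa [hc0] using e2
        rw [hx, hx', e3, e4]
      · rw [if_pos hx, if_neg hx'] at hh
        exact absurd hh (by simp)
    · by_cases hx' : x' = -1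
      · rw [if_neg hx, if_pos hx'] at hh
        exact absurd hh (by simp)
      · rw [if_neg hx, if_neg hx'] at hh
        have hs : y / (x + 1) = y' / (x' + 1) := Option.some.inj hh
        have g1 : x + 1 ≠ 0 := fun h => hx (by linear_combination h)
        have g2 : x' + 1 ≠ 0 := fun h => hx' (by linear_combination h)
        set s := y / (x + 1) with hs0
        have e1 : y = s * (x + 1) := by rw [hs0]; field_simp
        have e2 : y' = s * (x' + 1) := by rw [hs]; field_simp
        have e3 : (x + 1) * ((x - 1) - c * s ^ 2 * (x + 1)) = 0 := by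
          rw [e1] at h; linear_combination h
        have e4 : (x' + 1) * ((x' - 1) - c * s ^ 2 * (x' + 1)) = 0 := by
          rw [e2] at h'; linear_combination h'
        have e5 : (x - 1) - c * s ^ 2 * (x + 1) = 0 := (mul_eq_zero.1 e3).resolve_left g1
        have e6 : (x' - 1) - c * s ^ 2 * (x' + 1) = 0 := (mul_eq_zero.1 e4).resolve_left g2
        have e7 : (1 - c * s ^ 2) * (x - x') = 0 := by linear_combination e5 - e6
        have e8 : 1 - c * s ^ 2 ≠ 0 := by
          intro h0
          have := norm_zero (x := 1) (y := s) hc (by linear_combination h0)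
          exact one_ne_zero this.1
        have e9 : x = x' := by
          have := (mul_eq_zero.1 e7).resolve_left e8
          linear_combination this
        rw [e1, e2, e9]
  by_cases hκ : κ = 0
  · have : Finset.univ.filter (fun p : F × F => p.1 ^ 2 - c * p.2 ^ 2 = κ) ⊆ {(0, 0)} := by
      intro p hp
      rw [Finset.mem_filter] at hp
      have := norm_zero hc (hκ ▸ hp.2)
      rw [Finset.mem_singleton]
      exact Prod.ext this.1 this.2
    calc _ ≤ _ := Finset.card_le_card this
      _ ≤ _ := by rw [Finset.card_singleton]; omega
  · rcases Finset.eq_empty_or_nonempty (Finset.univ.filter (fun p : F × F => p.1 ^ 2 - c * p.2 ^ 2 = κ)) with he | ⟨⟨u, v⟩, huv⟩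
    · rw [he, Finset.card_empty]; omega
    · rw [Finset.mem_filter] at huv
      have huv : u ^ 2 - c * v ^ 2 = κ := huv.2
      refine le_trans ?_ h1
      refine Finset.card_le_card_of_injOn (fun p => ((p.1 * u - c * p.2 * v) / κ, (p.2 * u - p.1 * v) / κ)) ?_ ?_
      · rintro ⟨x, y⟩ h
        simp only [Finset.coe_filter, Finset.mem_univ, true_and, Set.mem_ofPred_eq] at h ⊢
        field_simp
        rw [← h] at huv ⊢
        linear_combination (x ^ 2 - c * y ^ 2) * huv
      · rintro ⟨x, y⟩ h ⟨x', y'⟩ h' hh
        simp only [Prod.mk.injEq] at hh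
        obtain ⟨h1, h2⟩ := hh
        have g1 : x * u - c * y * v = x' * u - c * y' * v := by field_simp at h1; linear_combination h1
        have g2 : y * u - x * v = y' * u - x' * v := by field_simp at h2; linear_combination h2
        have g3 : κ * (x - x') = 0 := by
          rw [← huv]; linear_combination u * g1 + c * v * g2
        have g4 : κ * (y - y') = 0 := by
          rw [← huv]; linear_combination v * g1 + u * g2
        have g5 := (mul_eq_zero.1 g3).resolve_left hκ
        have g6 := (mul_eq_zero.1 g4).resolve_left hκ
        exact Prod.ext (by linear_combination g5) (by linear_combination g6)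

/-- a circle has at most `q + 1` points -/
theorem circle_card (h2 : (2 : F) ≠ 0) {c : F} (hc : ¬ IsSquare c) (a : Fin 3 → F) (ha : a ≠ 0) :
    (Finset.univ.filter (fun p : F × F => a 2 * (p.1 ^ 2 - c * p.2 ^ 2) - 2 * a 0 * p.1 - a 1 = 0)).card
      + (if a 2 = 0 then 1 else 0) ≤ Fintype.card F + 1 := by
  classical
  by_cases h : a 2 = 0
  · rw [if_pos h]
    by_cases h0 : a 0 = 0
    · have h1 : a 1 ≠ 0 := by
        intro h1
        apply ha
        funext i
        fin_cases i
        · exact h0
        · exact h1
        · exact h
      have : Finset.univ.filter (fun p : F × F => a 2 * (p.1 ^ 2 - c * p.2 ^ 2) - 2 * a 0 * p.1 - a 1 = 0) = ∅ := by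
        apply Finset.filter_eq_empty_iff.2
        intro p _ hp
        rw [h, h0] at hp
        apply h1
        linear_combination -hp
      rw [this, Finset.card_empty]; omega
    · apply Nat.succ_le_succ
      have h3 : Fintype.card F = (Finset.univ : Finset F).card := rfl
      rw [h3]
      refine Finset.card_le_card_of_injOn (fun p => p.2) (fun _ _ => Finset.mem_univ _) ?_
      rintro ⟨x, y⟩ h ⟨x', y'⟩ h' hh
      simp only [Finset.coe_filter, Finset.mem_univ, true_and, Set.mem_ofPred_eq] at h h' hh
      have e : 2 * a 0 * (x - x') = 0 := by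
        rename_i h22
        rw [h22] at h h'
        linear_combination h' - h
      have e1 : x - x' = 0 := (mul_eq_zero.1 e).resolve_left (mul_ne_zero h2 h0)
      rw [hh, sub_eq_zero.1 e1]
  · rw [if_neg h, add_zero]
    refine le_trans ?_ (norm_card hc (D a / a 2 ^ 2))
    refine Finset.card_le_card_of_injOn (fun p => (p.1 - a 0 / a 2, p.2)) ?_ ?_
    · rintro ⟨x, y⟩ h'
      simp only [Finset.coe_filter, Finset.mem_univ, true_and, Set.mem_ofPred_eq] at h' ⊢
      unfold D
      field_simp
      linear_combination a 2 * h'
    · rintro ⟨x, y⟩ h ⟨x', y'⟩ h' hh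
      simp only [Prod.mk.injEq, sub_left_inj] at hh
      exact Prod.ext hh.1 hh.2

/-- the number of vectors with `D = c` and of points of the conic on a line -/
theorem line_card (h2 : (2 : F) ≠ 0) {c : F} (hc : ¬ IsSquare c) (a : Fin 3 → F) (ha : a ≠ 0) :
    (Finset.univ.filter (fun z : Fin 3 → F => D z = c ∧ B a z = 0)).card
      + (Finset.univ.filter (fun o : Option F => B a (cp o) = 0)).card ≤ Fintype.card F + 1 := by
  classical
  refine le_trans ?_ (circle_card h2 hc a ha)
  set C := Finset.univ.filter (fun p : F × F => a 2 * (p.1 ^ 2 - c * p.2 ^ 2) - 2 * a 0 * p.1 - a 1 = 0) with hC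
  have hz2 : ∀ z : Fin 3 → F, D z = c → z 2 ≠ 0 := by
    intro z hz h0
    unfold D at hz
    rw [h0, mul_zero, add_zero] at hz
    exact ne_of_nsq hc hz
  have e1 : (Finset.univ.filter (fun z : Fin 3 → F => D z = c ∧ B a z = 0)).card ≤
      (C.filter (fun p => ¬ p.2 = 0)).card := by
    refine Finset.card_le_card_of_injOn (fun z => (z 0 / z 2, 1 / z 2)) ?_ ?_
    · intro z hz
      simp only [Finset.coe_filter, Finset.mem_univ, true_and, Set.mem_ofPred_eq] at hz
      have h3 := hz2 z hz.1
      simp only [hC, Finset.coe_filter, Finset.mem_filter, Finset.mem_univ, true_and, Set.mem_ofPred_eq]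
      refine ⟨?_, by simpa using h3⟩
      have h4 := hz.2
      have h5 := hz.1
      unfold B at h4
      unfold D at h5
      rw [← h5]
      field_simp
      linear_combination -(z 2) * h4
    · intro z hz z' hz' hh
      simp only [Finset.coe_filter, Finset.mem_univ, true_and, Set.mem_ofPred_eq] at hz hz'
      simp only [Prod.mk.injEq] at hh
      have h3 := hz2 z hz.1
      have h4 := hz2 z' hz'.1
      have e2 : z 2 = z' 2 := by
        have := hh.2
        field_simp at this
        exact this.symm
      have e0 : z 0 = z' 0 := by
        have := hh.1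
        rw [e2] at this
        field_simp at this
        exact this
      have e1 : z 1 = z' 1 := by
        have h5 := hz.1
        have h6 := hz'.1
        unfold D at h5 h6
        have : z' 2 * (z 1 - z' 1) = 0 := by
          rw [e2, e0] at h5
          linear_combination h5 - h6
        have := (mul_eq_zero.1 this).resolve_left h4
        linear_combination this
      funext i
      fin_cases i
      · exact e0
      · exact e1
      · exact e2
  have e2 : (Finset.univ.filter (fun o : Option F => B a (cp o) = 0)).card ≤
      (C.filter (fun p => p.2 = 0)).card + (if a 2 = 0 then 1 else 0) := by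
    have hsub : Finset.univ.filter (fun o : Option F => B a (cp o) = 0) ⊆
        ((C.filter (fun p => p.2 = 0)).image (fun p => some p.1)) ∪ (if a 2 = 0 then {none} else ∅) := by
      intro o ho
      rw [Finset.mem_filter] at ho
      rw [Finset.mem_union]
      cases o with
      | none =>
        right
        have : a 2 = 0 := by simpa using ho.2
        rw [if_pos this]
        exact Finset.mem_singleton_self _
      | some t =>
        left
        rw [Finset.mem_image]
        refine ⟨(t, 0), ?_, rfl⟩
        have := ho.2
        rw [B_cp_some] at this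
        simp only [hC, Finset.mem_filter, Finset.mem_univ, true_and]
        refine ⟨?_, trivial⟩
        linear_combination -this
    refine (Finset.card_le_card hsub).trans ((Finset.card_union_le _ _).trans ?_)
    apply Nat.add_le_add Finset.card_image_le
    split_ifs <;> simp
  have e3 := Finset.card_filter_add_card_filter_not (s := C) (fun p => p.2 = 0)
  omega

/-- the number of vectors with `D = c` -/
theorem sphere_card (c : F) :
    Fintype.card F * (Fintype.card F - 1) ≤ (Finset.univ.filter (fun z : Fin 3 → F => D z = c)).card := by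
  classical
  have : Fintype.card F * (Fintype.card F - 1) = ((Finset.univ : Finset F) ×ˢ (Finset.univ.erase (0 : F))).card := by
    rw [Finset.card_product, Finset.card_erase_of_mem (Finset.mem_univ _), Finset.card_univ]
  rw [this]
  refine Finset.card_le_card_of_injOn (fun p => ![p.1 / p.2, c * p.2 - p.1 ^ 2 / p.2, 1 / p.2]) ?_ ?_
  · rintro ⟨x, y⟩ h
    simp only [Finset.coe_product, Finset.coe_univ, Set.mem_prod, Set.mem_univ, true_and, Finset.coe_erase,
      Set.mem_sdiff, Set.mem_singleton_iff] at h
    simp only [Finset.coe_filter, Finset.mem_univ, true_and, Set.mem_ofPred_eq, D, Matrix.cons_val_zero,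
      Matrix.cons_val_one, Matrix.cons_val]
    field_simp
    ring
  · rintro ⟨x, y⟩ h ⟨x', y'⟩ h' hh
    simp only [Finset.coe_product, Finset.coe_univ, Set.mem_prod, Set.mem_univ, true_and, Finset.coe_erase,
      Set.mem_sdiff, Set.mem_singleton_iff] at h h'
    have e0 := congrFun hh 0
    have e2 := congrFun hh 2
    simp only [Matrix.cons_val_zero, Matrix.cons_val] at e0 e2
    have e3 : y = y' := by field_simp at e2; exact e2.symm
    subst e3
    have e4 : x = x' := by field_simp at e0; exact e0
    rw [e4]

/-- no point of the conic on the polar line of an internal point -/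
theorem conic_none (a : Fin 3 → F) (ha : ¬ IsSquare (D a)) (o : Option F) : B a (cp o) ≠ 0 := by
  intro h
  have h2 : a 2 ≠ 0 := by
    intro h2
    apply ha
    unfold D
    rw [h2, mul_zero, add_zero]
    exact ⟨a 0, sq _⟩
  cases o with
  | none => exact h2 (by simpa using h)
  | some t =>
    rw [B_cp_some] at h
    apply ha
    refine ⟨a 2 * t - a 0, ?_⟩
    unfold D
    linear_combination a 2 * h

/-- at most two points of the conic on a line -/
theorem conic_two (h2 : (2 : F) ≠ 0) (a : Fin 3 → F) (ha : a ≠ 0) :
    (Finset.univ.filter (fun o : Option F => B a (cp o) = 0)).card ≤ 2 := by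
  classical
  by_contra hlt
  push Not at hlt
  obtain ⟨o1, o2, o3, h1, h2', h3, h12, h13, h23⟩ := Finset.two_lt_card_iff.1 hlt
  rw [Finset.mem_filter] at h1 h2' h3
  replace h1 := h1.2
  replace h2' := h2'.2
  replace h3 := h3.2
  have key : ∀ s t : F, s ≠ t → a 2 = 0 → B a (cp (some s)) = 0 → B a (cp (some t)) = 0 → False := by
    intro s t hst h0 hs ht
    rw [B_cp_some, h0] at hs ht
    have e : 2 * a 0 * (s - t) = 0 := by linear_combination hs - ht
    have e0 : a 0 = 0 := by
      rcases mul_eq_zero.1 e with h | h
      · exact (mul_eq_zero.1 h).resolve_left h2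
      · exact absurd (sub_eq_zero.1 h) hst
    have e1 : a 1 = 0 := by rw [e0] at hs; linear_combination hs
    apply ha
    funext i
    fin_cases i
    · exact e0
    · exact e1
    · exact h0
  have key3 : ∀ s t r : F, s ≠ t → s ≠ r → t ≠ r → B a (cp (some s)) = 0 → B a (cp (some t)) = 0 →
      B a (cp (some r)) = 0 → False := by
    intro s t r hst hsr htr hs ht hr
    have hs' := hs
    have ht' := ht
    rw [B_cp_some] at hs ht hr
    have e1 : (s - t) * (2 * a 0 - a 2 * (s + t)) = 0 := by linear_combination hs - ht
    have e2 : (s - r) * (2 * a 0 - a 2 * (s + r)) = 0 := by linear_combination hs - hr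
    have e3 := (mul_eq_zero.1 e1).resolve_left (sub_ne_zero.2 hst)
    have e4 := (mul_eq_zero.1 e2).resolve_left (sub_ne_zero.2 hsr)
    have e5 : a 2 * (t - r) = 0 := by linear_combination e4 - e3
    have e6 := (mul_eq_zero.1 e5).resolve_right (sub_ne_zero.2 htr)
    exact key s t hst e6 hs' ht'
  cases o1 with
  | none =>
    cases o2 with
    | none => exact h12 rfl
    | some t =>
      cases o3 with
      | none => exact h13 rfl
      | some r => exact key t r (fun h => h23 (by rw [h])) (by simpa using h1) h2' h3
  | some s =>
    cases o2 with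
    | none =>
      cases o3 with
      | none => exact h23 rfl
      | some r => exact key s r (fun h => h13 (by rw [h])) (by simpa using h2') h1 h3
    | some t =>
      cases o3 with
      | none => exact key s t (fun h => h12 (by rw [h])) (by simpa using h3) h1 h2'
      | some r =>
        exact key3 s t r (fun h => h12 (by rw [h])) (fun h => h13 (by rw [h])) (fun h => h23 (by rw [h]))
          h1 h2' h3

end Pool.Agent.SpreadPGL
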