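import Mathlib
import Pool.Agent.Lib_MP_9e452d.Count

/-!
# MP_9e452d_al: few linear forms through many points
-/

set_option autoImplicit false

namespace Pool.Agent.SpreadPGL

/-- a set with at most `2 m` elements and fibres with at most `m` elements can be covered by `m` sets with at
most two elements, in different fibres -/
theorem pairing {α κ : Type*} [DecidableEq α] [DecidableEq κ] (f : α → κ) : ∀ (m : ℕ) (T : Finset α),
    T.card ≤ 2 * m → (∀ k, (T.filter (fun t => f t = k)).card ≤ m) →
    ∃ P : Fin m → Finset α, (∀ t ∈ T, ∃ s, t ∈ P s) ∧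
      ∀ s, P s ⊆ T ∧ (P s = ∅ ∨ (∃ t, P s = {t}) ∨ ∃ t t', P s = {t, t'} ∧ f t ≠ f t') := by
  intro m
  induction m with
  | zero =>
    intro T hT _
    have : T = ∅ := Finset.card_eq_zero.1 (by omega)
    subst this
    exact ⟨fun _ => ∅, by simp, fun s => s.elim0⟩
  | succ m ih =>
    intro T hT hf
    rcases Finset.eq_empty_or_nonempty T with he | hne
    · subst he
      exact ⟨fun _ => ∅, by simp, fun s => ⟨by simp, Or.inl rfl⟩⟩
    obtain ⟨t1, ht1, hmax1⟩ := Finset.exists_max_image T (fun t => (T.filter (fun t' => f t' = f t)).card) hne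
    have finish : ∀ (p T' : Finset α), T' ⊆ T → p ⊆ T → (∀ t ∈ T, t ∈ p ∨ t ∈ T') → T'.card ≤ 2 * m →
        (∀ k, (T'.filter (fun t => f t = k)).card ≤ m) →
        (p = ∅ ∨ (∃ t, p = {t}) ∨ ∃ t t', p = {t, t'} ∧ f t ≠ f t') →
        ∃ P : Fin (m + 1) → Finset α, (∀ t ∈ T, ∃ s, t ∈ P s) ∧
          ∀ s, P s ⊆ T ∧ (P s = ∅ ∨ (∃ t, P s = {t}) ∨ ∃ t t', P s = {t, t'} ∧ f t ≠ f t') := by
      intro p T' hT' hp hcov hc hk hpp
      obtain ⟨P, hP1, hP2⟩ := ih T' hc hk
      refine ⟨Fin.cons p P, ?_, ?_⟩
      · intro t ht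
        rcases hcov t ht with h | h
        · exact ⟨0, by simpa using h⟩
        · obtain ⟨s, hs⟩ := hP1 t h
          exact ⟨s.succ, by simpa using hs⟩
      · intro s
        refine Fin.cases ?_ (fun s => ?_) s
        · simpa using ⟨hp, hpp⟩
        · simpa using ⟨(hP2 s).1.trans hT', (hP2 s).2⟩
    rcases Finset.eq_empty_or_nonempty (T.filter (fun t => f t ≠ f t1)) with he | hne2
    · have hall : T.filter (fun t => f t = f t1) = T := by
        rw [Finset.filter_eq_self]
        intro t ht
        by_contra h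
        have : t ∈ T.filter (fun t => f t ≠ f t1) := Finset.mem_filter.2 ⟨ht, h⟩
        rw [he] at this
        exact absurd this (Finset.notMem_empty _)
      have hc1 : T.card ≤ m + 1 := by
        have := hf (f t1)
        rwa [hall] at this
      have hc2 : (T.erase t1).card ≤ m := by
        rw [Finset.card_erase_of_mem ht1]; omega
      refine finish {t1} (T.erase t1) (Finset.erase_subset _ _) (by simpa using ht1) ?_ (by omega) ?_
        (Or.inr (Or.inl ⟨t1, rfl⟩))
      · intro t ht
        by_cases h : t = t1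
        · exact Or.inl (by simp [h])
        · exact Or.inr (Finset.mem_erase.2 ⟨h, ht⟩)
      · intro k
        exact (Finset.card_filter_le _ _).trans hc2
    · obtain ⟨t2, ht2, hmax2⟩ := Finset.exists_max_image (T.filter (fun t => f t ≠ f t1))
        (fun t => (T.filter (fun t' => f t' = f t)).card) hne2
      rw [Finset.mem_filter] at ht2
      have hne12 : t2 ≠ t1 := fun h => ht2.2 (by rw [h])
      have ht2' : t2 ∈ T.erase t1 := Finset.mem_erase.2 ⟨hne12, ht2.1⟩
      have hcT : ((T.erase t1).erase t2).card = T.card - 2 := by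
        rw [Finset.card_erase_of_mem ht2', Finset.card_erase_of_mem ht1]; omega
      refine finish {t1, t2} ((T.erase t1).erase t2) ((Finset.erase_subset _ _).trans (Finset.erase_subset _ _)) ?_ ?_
        (by omega) ?_ (Or.inr (Or.inr ⟨t1, t2, rfl, fun h => ht2.2 h.symm⟩))
      · intro t ht
        rw [Finset.mem_insert, Finset.mem_singleton] at ht
        rcases ht with h | h
        · rw [h]; exact ht1
        · rw [h]; exact ht2.1
      · intro t ht
        by_cases h : t = t1
        · exact Or.inl (by simp [h])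
        · by_cases h' : t = t2
          · exact Or.inl (by simp [h'])
          · exact Or.inr (Finset.mem_erase.2 ⟨h', Finset.mem_erase.2 ⟨h, ht⟩⟩)
      · intro k
        have hk := hf k
        have hsub : ((T.erase t1).erase t2).filter (fun t => f t = k) ⊆ T.filter (fun t => f t = k) :=
          Finset.filter_subset_filter _ ((Finset.erase_subset _ _).trans (Finset.erase_subset _ _))
        by_cases h1 : f t1 = k
        · have : ((T.erase t1).erase t2).filter (fun t => f t = k) ⊆ (T.filter (fun t => f t = k)).erase t1 := by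
            intro t ht
            rw [Finset.mem_filter, Finset.mem_erase, Finset.mem_erase] at ht
            exact Finset.mem_erase.2 ⟨ht.1.2.1, Finset.mem_filter.2 ⟨ht.1.2.2, ht.2⟩⟩
          have h3 := Finset.card_le_card this
          rw [Finset.card_erase_of_mem (Finset.mem_filter.2 ⟨ht1, h1⟩)] at h3
          omega
        by_cases h2 : f t2 = k
        · have : ((T.erase t1).erase t2).filter (fun t => f t = k) ⊆ (T.filter (fun t => f t = k)).erase t2 := by
            intro t ht
            rw [Finset.mem_filter, Finset.mem_erase, Finset.mem_erase] at ht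
            exact Finset.mem_erase.2 ⟨ht.1.1, Finset.mem_filter.2 ⟨ht.1.2.2, ht.2⟩⟩
          have h3 := Finset.card_le_card this
          rw [Finset.card_erase_of_mem (Finset.mem_filter.2 ⟨ht2.1, h2⟩)] at h3
          omega
        rcases Finset.eq_empty_or_nonempty (T.filter (fun t => f t = k)) with he | ⟨t, ht⟩
        · rw [he] at hsub
          have := Finset.card_le_card hsub
          rw [Finset.card_empty] at this
          omega
        · rw [Finset.mem_filter] at ht
          have e1 : (T.filter (fun t' => f t' = k)).card ≤ (T.filter (fun t' => f t' = f t1)).card := by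
            have := hmax1 t ht.1
            rwa [ht.2] at this
          have e2 : (T.filter (fun t' => f t' = k)).card ≤ (T.filter (fun t' => f t' = f t2)).card := by
            have := hmax2 t (Finset.mem_filter.2 ⟨ht.1, by rw [ht.2]; exact fun h => h1 h.symm⟩)
            rwa [ht.2] at this
          have hd1 : Disjoint (T.filter (fun t' => f t' = k)) (T.filter (fun t' => f t' = f t1)) := by
            rw [Finset.disjoint_filter]
            intro x _ hx hx'
            exact h1 (hx' ▸ hx)
          have hd2 : Disjoint (T.filter (fun t' => f t' = k) ∪ T.filter (fun t' => f t' = f t1))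
              (T.filter (fun t' => f t' = f t2)) := by
            rw [Finset.disjoint_union_left, Finset.disjoint_filter, Finset.disjoint_filter]
            refine ⟨fun x _ hx hx' => h2 (hx' ▸ hx), fun x _ hx hx' => ht2.2 (hx' ▸ hx)⟩
          have hle : ((T.filter (fun t' => f t' = k) ∪ T.filter (fun t' => f t' = f t1)) ∪
              T.filter (fun t' => f t' = f t2)).card ≤ T.card := by
            apply Finset.card_le_card
            intro x hx
            simp only [Finset.mem_union, Finset.mem_filter] at hx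
            rcases hx with (h | h) | h
            · exact h.1
            · exact h.1
            · exact h.1
          rw [Finset.card_union_of_disjoint hd2, Finset.card_union_of_disjoint hd1] at hle
          have := Finset.card_le_card hsub
          omega

variable {F : Type*} [Field F]

/-- the determinant of three vectors -/
def dt (t u z : Fin 3 → F) : F :=
  z 0 * (t 1 * u 2 - t 2 * u 1) + z 1 * (t 2 * u 0 - t 0 * u 2) + z 2 * (t 0 * u 1 - t 1 * u 0)

/-- the vector with `B (cr t u) z = dt t u z` -/
def cr (t u : Fin 3 → F) : Fin 3 → F :=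
  ![(t 1 * u 2 - t 2 * u 1) / 2, t 0 * u 1 - t 1 * u 0, t 2 * u 0 - t 0 * u 2]

theorem B_cr (h2 : (2 : F) ≠ 0) (t u z : Fin 3 → F) : B (cr t u) z = dt t u z := by
  simp only [B, cr, dt, Matrix.cons_val_zero, Matrix.cons_val_one, Matrix.cons_val]
  field_simp
  ring

theorem dt_left (t u : Fin 3 → F) : dt t u t = 0 := by simp only [dt]; ring

theorem dt_mid (t u : Fin 3 → F) : dt t u u = 0 := by simp only [dt]; ring

theorem dt_rot (t u z : Fin 3 → F) : dt t u z = dt z t u := by simp only [dt]; ring

theorem dt_swap (t u z : Fin 3 → F) : dt t u z = - dt u t z := by simp only [dt]; ring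

/-- a nonzero vector has a nonzero product with some vector -/
theorem exists_B_ne (h2 : (2 : F) ≠ 0) (R : Fin 3 → F) (hR : R ≠ 0) : ∃ w, B w R ≠ 0 := by
  by_contra h
  push Not at h
  apply hR
  funext i
  fin_cases i
  · have := h ![1, 0, 0]
    simpa [B, h2] using this
  · have := h ![0, 0, 1]
    simpa [B] using this
  · have := h ![0, 1, 0]
    simpa [B] using this

theorem cr_ne (h2 : (2 : F) ≠ 0) {R t : Fin 3 → F} (hR : R 2 = 1) (ht : t 2 = 1) (hne : t ≠ R) : cr R t ≠ 0 := by
  intro h
  apply hne
  have e0 := congrFun h 0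
  have e1 := congrFun h 1
  have e2 := congrFun h 2
  simp only [cr, Matrix.cons_val_zero, Matrix.cons_val_one, Matrix.cons_val, Pi.zero_apply, hR, ht] at e0 e1 e2
  have e3 : R 1 * 1 - 1 * t 1 = 0 := by
    rcases div_eq_zero_iff.1 e0 with h | h
    · exact h
    · exact absurd h h2
  funext i
  fin_cases i
  · show t 0 = R 0
    linear_combination e2
  · show t 1 = R 1
    linear_combination -e3
  · show t 2 = R 2
    rw [hR, ht]

theorem dt_trans {R t t' z : Fin 3 → F} (h2 : (2 : F) ≠ 0) (h : cr R t ≠ 0) (h0 : dt R t t' = 0) (hz : dt R t z = 0) :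
    dt R t' z = 0 := by
  -- the cross products `c = R x t` and `c' = R x t'` are proportional
  have hc : R 1 * t 2 - R 2 * t 1 ≠ 0 ∨ R 2 * t 0 - R 0 * t 2 ≠ 0 ∨ R 0 * t 1 - R 1 * t 0 ≠ 0 := by
    by_contra hcon
    push Not at hcon
    apply h
    funext i
    fin_cases i
    · simp [cr, hcon.1]
    · simp [cr, hcon.2.2]
    · simp [cr, hcon.2.1]
  unfold dt at h0 hz ⊢
  rcases hc with hc | hc | hc
  · apply (mul_eq_zero.1 (?_ : (R 1 * t 2 - R 2 * t 1) * _ = 0)).resolve_left hc
    linear_combination (R 1 * t' 2 - R 2 * t' 1) * hz + (R 2 * z 1 - R 1 * z 2) * h0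
  · apply (mul_eq_zero.1 (?_ : (R 2 * t 0 - R 0 * t 2) * _ = 0)).resolve_left hc
    linear_combination (R 2 * t' 0 - R 0 * t' 2) * hz + (R 0 * z 2 - R 2 * z 0) * h0
  · apply (mul_eq_zero.1 (?_ : (R 0 * t 1 - R 1 * t 0) * _ = 0)).resolve_left hc
    linear_combination (R 0 * t' 1 - R 1 * t' 0) * hz + (R 1 * z 0 - R 0 * z 1) * h0

/-- few linear forms through the points of `T`, not through `R` -/
theorem exists_forms (h2 : (2 : F) ≠ 0) (R : Fin 3 → F) (hR : R 2 = 1) (m : ℕ) (T : Finset (Fin 3 → F))
    (hT : T.card ≤ 2 * m) (h1 : ∀ t ∈ T, t 2 = 1 ∧ t ≠ R)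
    (hcl : ∀ (S : Finset (Fin 3 → F)) (a : Fin 3 → F), a ≠ 0 → S ⊆ T → (∀ t ∈ S, B a t = 0) → S.card ≤ m) :
    ∃ w : Fin m → (Fin 3 → F), (∀ s, B (w s) R ≠ 0) ∧ ∀ t ∈ T, ∃ s, B (w s) t = 0 := by
  classical
  have hR0 : R ≠ 0 := by
    intro h
    rw [h] at hR
    exact zero_ne_one hR
  obtain ⟨P, hP1, hP2⟩ := pairing (fun t : Fin 3 → F => {z : Fin 3 → F | dt R t z = 0}) m T hT (by
    intro k
    rcases Finset.eq_empty_or_nonempty (T.filter (fun t => {z : Fin 3 → F | dt R t z = 0} = k)) with he | ⟨t, ht⟩
    · rw [he]; simp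
    · rw [Finset.mem_filter] at ht
      refine hcl _ (cr R t) (cr_ne h2 hR (h1 t ht.1).1 (h1 t ht.1).2) (Finset.filter_subset _ _) ?_
      intro t' ht'
      rw [Finset.mem_filter] at ht'
      rw [B_cr h2]
      have : t' ∈ {z : Fin 3 → F | dt R t z = 0} := by
        rw [ht.2, ← ht'.2]
        exact dt_mid R t'
      exact this)
  have hex : ∀ s, ∃ w : Fin 3 → F, B w R ≠ 0 ∧ ∀ t ∈ P s, B w t = 0 := by
    intro s
    obtain ⟨hsub, h | ⟨t, h⟩ | ⟨t, t', h, hne⟩⟩ := hP2 s
    · obtain ⟨w, hw⟩ := exists_B_ne h2 R hR0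
      exact ⟨w, hw, by rw [h]; simp⟩
    · have htT : t ∈ T := hsub (by rw [h]; simp)
      have hc := cr_ne h2 hR (h1 t htT).1 (h1 t htT).2
      obtain ⟨u, hu⟩ := exists_B_ne h2 _ hc
      rw [B_comm, B_cr h2] at hu
      refine ⟨cr t u, ?_, ?_⟩
      · rw [B_cr h2, dt_rot]
        exact hu
      · intro t' ht'
        rw [h, Finset.mem_singleton] at ht'
        rw [ht', B_cr h2]
        exact dt_left t u
    · have htT : t ∈ T := hsub (by rw [h]; simp)
      have htT' : t' ∈ T := hsub (by rw [h]; simp)
      have hc := cr_ne h2 hR (h1 t htT).1 (h1 t htT).2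
      have hc' := cr_ne h2 hR (h1 t' htT').1 (h1 t' htT').2
      refine ⟨cr t t', ?_, ?_⟩
      · rw [B_cr h2, dt_rot]
        intro h0
        apply hne
        ext z
        constructor
        · intro hz
          exact dt_trans h2 hc h0 hz
        · intro hz
          refine dt_trans h2 hc' ?_ hz
          have : dt R t' t = - dt R t t' := by simp only [dt]; ring
          rw [this, h0, neg_zero]
      · intro x hx
        rw [h, Finset.mem_insert, Finset.mem_singleton] at hx
        rw [B_cr h2]
        rcases hx with hx | hx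
        · rw [hx]; exact dt_left t t'
        · rw [hx]; exact dt_mid t t'
  choose w hw1 hw2 using hex
  refine ⟨w, hw1, fun t ht => ?_⟩
  obtain ⟨s, hs⟩ := hP1 t ht
  exact ⟨s, hw2 s t hs⟩

end Pool.Agent.SpreadPGL
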