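import Mathlib
import Pool.Agent.Lib_MP_9e452d.Pairing

/-!
# MP_9e452d_al: the polynomial argument
-/

set_option autoImplicit false

namespace Pool.Agent.SpreadPGL

variable {F : Type*} [Field F]

/-- the linear form `B a` as a polynomial -/
noncomputable def LF (a : Fin 3 → F) : MvPolynomial (Fin 3) F :=
  MvPolynomial.C (2 * a 0) * MvPolynomial.X 0 + MvPolynomial.C (a 1) * MvPolynomial.X 2
    + MvPolynomial.C (a 2) * MvPolynomial.X 1

/-- the form `D` as a polynomial -/
noncomputable def DP : MvPolynomial (Fin 3) F :=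
  MvPolynomial.X 0 ^ 2 + MvPolynomial.X 1 * MvPolynomial.X 2

theorem eval_LF (a z : Fin 3 → F) : MvPolynomial.eval z (LF a) = B a z := by
  simp [LF, B]

theorem eval_DP (z : Fin 3 → F) : MvPolynomial.eval z (DP : MvPolynomial (Fin 3) F) = D z := by
  simp [DP, D]

theorem deg_LF (a : Fin 3 → F) : (LF a).totalDegree ≤ 1 := by
  have h : ∀ (c : F) (i : Fin 3), (MvPolynomial.C c * MvPolynomial.X i : MvPolynomial (Fin 3) F).totalDegree ≤ 1 := by
    intro c i
    refine (MvPolynomial.totalDegree_mul _ _).trans ?_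
    rw [MvPolynomial.totalDegree_C, MvPolynomial.totalDegree_X]
  unfold LF
  refine (MvPolynomial.totalDegree_add _ _).trans (max_le ?_ (h _ _))
  exact (MvPolynomial.totalDegree_add _ _).trans (max_le (h _ _) (h _ _))

theorem deg_DP : (DP : MvPolynomial (Fin 3) F).totalDegree ≤ 2 := by
  unfold DP
  refine (MvPolynomial.totalDegree_add _ _).trans (max_le ?_ ?_)
  · refine (MvPolynomial.totalDegree_pow _ _).trans ?_
    rw [MvPolynomial.totalDegree_X]
  · refine (MvPolynomial.totalDegree_mul _ _).trans ?_
    rw [MvPolynomial.totalDegree_X, MvPolynomial.totalDegree_X]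

/-- nonzero isotropic vectors are multiples of the representatives -/
theorem exists_cp {N : Fin 3 → F} (hN : N ≠ 0) (hD : D N = 0) : ∃ (o : Option F) (c : F), c ≠ 0 ∧ N = c • cp o := by
  unfold D at hD
  by_cases h : N 2 = 0
  · rw [h, mul_zero, add_zero] at hD
    have h0 : N 0 = 0 := by simpa using hD
    have h1 : N 1 ≠ 0 := by
      intro h1
      apply hN
      funext i
      fin_cases i
      · exact h0
      · exact h1
      · exact h
    refine ⟨none, N 1, h1, ?_⟩
    funext i
    fin_cases i
    · simp [cp, h0]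
    · simp [cp]
    · simp [cp, h]
  · refine ⟨some (N 0 / N 2), N 2, h, ?_⟩
    funext i
    fin_cases i
    · simp [cp]; field_simp
    · simp [cp]; field_simp; linear_combination hD
    · simp [cp]

variable [Fintype F] [DecidableEq F]

/-- product of two nonsquares -/
theorem nsq_mul {a b : F} (ha : ¬ IsSquare a) (hb : ¬ IsSquare b) : IsSquare (a * b) := by
  have ha0 : a ≠ 0 := fun h => ha (h ▸ IsSquare.zero)
  have hb0 : b ≠ 0 := fun h => hb (h ▸ IsSquare.zero)
  have e1 : quadraticChar F a = -1 := quadraticChar_neg_one_iff_not_isSquare.2 ha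
  have e2 : quadraticChar F b = -1 := quadraticChar_neg_one_iff_not_isSquare.2 hb
  rw [← quadraticChar_one_iff_isSquare (mul_ne_zero ha0 hb0), map_mul, e1, e2]
  norm_num

/-- internal points on a line -/
theorem pts_card (h2 : ringChar F ≠ 2) (S : Finset (Fin 3 → F)) (a : Fin 3 → F) (ha : a ≠ 0)
    (hS : ∀ t ∈ S, t 2 = 1 ∧ ¬ IsSquare (D t) ∧ B a t = 0) : 2 * S.card ≤ Fintype.card F + 1 := by
  classical
  have h2' : (2 : F) ≠ 0 := Ring.two_ne_zero h2
  obtain ⟨c, hc⟩ := FiniteField.exists_nonsquare h2
  have hc0 : c ≠ 0 := fun h => hc (h ▸ IsSquare.zero)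
  have hex : ∀ t : Fin 3 → F, ∃ s : F, t ∈ S → s ≠ 0 ∧ D t * s ^ 2 = c := by
    intro t
    by_cases ht : t ∈ S
    · have hD := (hS t ht).2.1
      obtain ⟨r, hr⟩ := nsq_mul hD hc
      have hD0 : D t ≠ 0 := fun h => hD (h ▸ IsSquare.zero)
      have hr0 : r ≠ 0 := by
        intro h
        rw [h, mul_zero] at hr
        exact mul_ne_zero hD0 hc0 hr
      refine ⟨r / D t, fun _ => ⟨div_ne_zero hr0 hD0, ?_⟩⟩
      field_simp
      linear_combination -hr
    · exact ⟨0, fun h => absurd h ht⟩
  choose s hs using hex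
  have key := line_card h2' hc a ha
  have h3 : (S ×ˢ (Finset.univ : Finset Bool)).card ≤ (Finset.univ.filter (fun z : Fin 3 → F => D z = c ∧ B a z = 0)).card := by
    refine Finset.card_le_card_of_injOn (fun p => (if p.2 then s p.1 else - s p.1) • p.1) ?_ ?_
    · rintro ⟨t, b⟩ h
      simp only [Finset.coe_product, Finset.coe_univ, Set.mem_prod, Finset.mem_coe, Set.mem_univ, and_true] at h
      simp only [Finset.coe_filter, Finset.mem_univ, true_and, Set.mem_ofPred_eq]
      have h4 := hs t h
      have h5 := hS t h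
      rw [D_smul, B_smul, h5.2.2, mul_zero]
      refine ⟨?_, rfl⟩
      split_ifs
      · linear_combination h4.2
      · linear_combination h4.2
    · rintro ⟨t, b⟩ h ⟨t', b'⟩ h' hh
      simp only [Finset.coe_product, Finset.coe_univ, Set.mem_prod, Finset.mem_coe, Set.mem_univ, and_true] at h h' hh
      have h5 := hS t h
      have h5' := hS t' h'
      have e2 := congrFun hh 2
      simp only [Pi.smul_apply, smul_eq_mul, h5.1, h5'.1, mul_one] at e2
      have hne : (if b' = true then s t' else - s t') ≠ 0 := by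
        split_ifs
        · exact (hs t' h').1
        · exact neg_ne_zero.2 (hs t' h').1
      have htt : t = t' := by
        rw [e2] at hh
        exact smul_right_injective _ hne hh
      subst htt
      have hbb : b = b' := by
        have h6 := (hs t h).1
        have h7 : s t ≠ - s t := by
          intro h8
          apply h6
          have : 2 * s t = 0 := by linear_combination h8
          exact (mul_eq_zero.1 this).resolve_left h2'
        cases b <;> cases b' <;> simp at e2 ⊢
        · exact absurd e2.symm h7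
        · exact absurd e2 h7
      rw [hbb]
  rw [Finset.card_product, Finset.card_univ, Fintype.card_bool] at h3
  omega

/-- The polynomial argument: `q - 3` vectors cannot have both covering properties. -/
theorem core (h2 : ringChar F ≠ 2) {ι : Type*} [Fintype ι] (hι : Fintype.card ι + 3 = Fintype.card F)
    (a : ι → (Fin 3 → F)) (ha : ∀ i, a i ≠ 0)
    (K1 : ∀ z, ¬ IsSquare (D z) → ∃ i, B (a i) z = 0 ∨ ∃ c : F, z = c • a i)
    (K2 : ∀ z, D z ≠ 0 → IsSquare (D z) → ∃ i, B (a i) z = 0 ∨ ∃ N, N ≠ 0 ∧ D N = 0 ∧ B (a i) N = 0 ∧ B N z = 0) :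
    False := by
  classical
  have h2' : (2 : F) ≠ 0 := Ring.two_ne_zero h2
  obtain ⟨c, hc⟩ := FiniteField.exists_nonsquare h2
  have hc0 : c ≠ 0 := fun h => hc (h ▸ IsSquare.zero)
  set q := Fintype.card F with hq
  set k := Fintype.card ι with hk
  set S := Finset.univ.filter (fun z : Fin 3 → F => D z = c) with hS
  set I := Finset.univ.filter (fun i : ι => ¬ IsSquare (D (a i))) with hI
  set A := Finset.univ.filter (fun o : Option F => ∃ i, B (a i) (cp o) = 0) with hA
  have hl : ∀ i, (S.filter (fun z => B (a i) z = 0)).card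
      + (Finset.univ.filter (fun o : Option F => B (a i) (cp o) = 0)).card ≤ q + 1 := by
    intro i
    have := line_card h2' hc (a i) (ha i)
    rw [hS, Finset.filter_filter]
    exact this
  -- the conic points
  have hA1 : A.card ≤ ∑ i, (Finset.univ.filter (fun o : Option F => B (a i) (cp o) = 0)).card := by
    have : A ⊆ Finset.univ.biUnion (fun i => Finset.univ.filter (fun o : Option F => B (a i) (cp o) = 0)) := by
      intro o ho
      rw [hA, Finset.mem_filter] at ho
      obtain ⟨i, hi⟩ := ho.2
      rw [Finset.mem_biUnion]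
      exact ⟨i, Finset.mem_univ _, Finset.mem_filter.2 ⟨Finset.mem_univ _, hi⟩⟩
    exact (Finset.card_le_card this).trans Finset.card_biUnion_le
  have hS1 : S.card ≤ (∑ i, (S.filter (fun z => B (a i) z = 0)).card) + 2 * I.card := by
    have : S ⊆ (Finset.univ.biUnion (fun i => S.filter (fun z => B (a i) z = 0))) ∪
        I.biUnion (fun i => S.filter (fun z => ∃ c' : F, z = c' • a i)) := by
      intro z hz
      have hDz : D z = c := by
        rw [hS, Finset.mem_filter] at hz
        exact hz.2
      obtain ⟨i, h | ⟨c', h⟩⟩ := K1 z (by rw [hDz]; exact hc)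
      · exact Finset.mem_union_left _ (Finset.mem_biUnion.2 ⟨i, Finset.mem_univ _, Finset.mem_filter.2 ⟨hz, h⟩⟩)
      · refine Finset.mem_union_right _ (Finset.mem_biUnion.2 ⟨i, ?_, Finset.mem_filter.2 ⟨hz, c', h⟩⟩)
        rw [hI, Finset.mem_filter]
        refine ⟨Finset.mem_univ _, fun hsq => hc ?_⟩
        rw [← hDz, h, D_smul]
        exact (IsSquare.sq c').mul hsq
    refine (Finset.card_le_card this).trans ((Finset.card_union_le _ _).trans (Nat.add_le_add Finset.card_biUnion_le ?_))
    refine Finset.card_biUnion_le.trans ?_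
    rw [mul_comm, ← smul_eq_mul]
    refine Finset.sum_le_card_nsmul _ _ _ (fun i _ => ?_)
    -- at most two multiples
    rcases Finset.eq_empty_or_nonempty (S.filter (fun z => ∃ c' : F, z = c' • a i)) with he | ⟨z0, hz0⟩
    · rw [he]; simp
    · rw [Finset.mem_filter, hS, Finset.mem_filter] at hz0
      obtain ⟨⟨-, hz0c⟩, c0, hc0'⟩ := hz0
      have hsub : S.filter (fun z => ∃ c' : F, z = c' • a i) ⊆ {z0, - z0} := by
        intro z hz
        rw [Finset.mem_filter, hS, Finset.mem_filter] at hz
        obtain ⟨⟨-, hzc⟩, c1, hc1⟩ := hz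
        rw [hc1, D_smul] at hzc
        rw [hc0', D_smul] at hz0c
        have hD0 : D (a i) ≠ 0 := by
          intro h
          rw [h, mul_zero] at hzc
          exact hc0 hzc.symm
        have : D (a i) * ((c1 - c0) * (c1 + c0)) = 0 := by linear_combination hzc - hz0c
        rcases mul_eq_zero.1 ((mul_eq_zero.1 this).resolve_left hD0) with h | h
        · have : c1 = c0 := by linear_combination h
          rw [hc1, hc0', this]
          simp
        · have : c1 = - c0 := by linear_combination h
          rw [hc1, hc0', this]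
          simp
      exact (Finset.card_le_card hsub).trans Finset.card_le_two
  have hS0 : q * (q - 1) ≤ S.card := sphere_card c
  have hq3 : 3 ≤ q := by omega
  have hsum : (∑ i, (S.filter (fun z => B (a i) z = 0)).card)
      + (∑ i, (Finset.univ.filter (fun o : Option F => B (a i) (cp o) = 0)).card) ≤ k * (q + 1) := by
    rw [← Finset.sum_add_distrib]
    have := Finset.sum_le_card_nsmul (Finset.univ : Finset ι) _ (q + 1) (fun i _ => hl i)
    rwa [Finset.card_univ, smul_eq_mul] at this
  -- a vector on no line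
  have hR : ∃ z ∈ S, ∀ i, B (a i) z ≠ 0 := by
    by_contra hcon
    push Not at hcon
    have h3 : S ⊆ Finset.univ.biUnion (fun i => S.filter (fun z => B (a i) z = 0)) := by
      intro z hz
      obtain ⟨i, hi⟩ := hcon z hz
      exact Finset.mem_biUnion.2 ⟨i, Finset.mem_univ _, Finset.mem_filter.2 ⟨hz, hi⟩⟩
    have h4 := (Finset.card_le_card h3).trans Finset.card_biUnion_le
    have h5 : q * (q - 1) ≤ k * (q + 1) := by omega
    have h6 : q = k + 3 := by omega
    rw [h6] at h5
    have h7 : (k + 3) * (k + 3 - 1) = k * (k + 3 + 1) + (k + 6) := by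
      have : k + 3 - 1 = k + 2 := by omega
      rw [this]; ring
    omega
  obtain ⟨R0, hR0S, hR0⟩ := hR
  rw [hS, Finset.mem_filter] at hR0S
  have hR0c : D R0 = c := hR0S.2
  obtain ⟨i0, hi0⟩ := K1 R0 (by rw [hR0c]; exact hc)
  replace hi0 := hi0.resolve_left (hR0 i0)
  obtain ⟨c0, hc0'⟩ := hi0
  have hz2 : ∀ z : Fin 3 → F, ¬ IsSquare (D z) → z 2 ≠ 0 := by
    intro z hz h0
    apply hz
    unfold D
    rw [h0, mul_zero, add_zero]
    exact IsSquare.sq _
  have hI0 : i0 ∈ I := by
    rw [hI, Finset.mem_filter]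
    refine ⟨Finset.mem_univ _, fun hsq => hc ?_⟩
    rw [← hR0c, hc0', D_smul]
    exact (IsSquare.sq c0).mul hsq
  -- normalised internal points
  set nz : ι → (Fin 3 → F) := fun i => (a i 2)⁻¹ • a i with hnz
  have hnz2 : ∀ i ∈ I, nz i 2 = 1 := by
    intro i hi
    rw [hI, Finset.mem_filter] at hi
    have := hz2 _ hi.2
    simp only [hnz, Pi.smul_apply, smul_eq_mul]
    exact inv_mul_cancel₀ this
  have hnzD : ∀ i ∈ I, ¬ IsSquare (D (nz i)) := by
    intro i hi hsq
    rw [hI, Finset.mem_filter] at hi
    apply hi.2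
    have h3 := hz2 _ hi.2
    have h4 : a i = (a i 2) • nz i := by
      simp only [hnz]
      rw [smul_smul, mul_inv_cancel₀ h3, one_smul]
    rw [h4, D_smul]
    exact (IsSquare.sq _).mul hsq
  set R := nz i0 with hRdef
  have hR2 : R 2 = 1 := hnz2 i0 hI0
  have hRB : ∀ i, B (a i) R ≠ 0 := by
    intro i h
    apply hR0 i
    rw [hc0', B_smul]
    have : B (a i) (a i0) = 0 := by
      have h3 := hz2 (a i0) (by rw [hI, Finset.mem_filter] at hI0; exact hI0.2)
      rw [hRdef] at h
      simp only [hnz] at h
      rw [B_smul] at h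
      exact (mul_eq_zero.1 h).resolve_left (inv_ne_zero h3)
    rw [this, mul_zero]
  set T := (I.image nz).erase R with hT
  have hTcard : T.card + 1 ≤ I.card := by
    have h3 : R ∈ I.image nz := Finset.mem_image_of_mem _ hI0
    have h4 : T.card = (I.image nz).card - 1 := Finset.card_erase_of_mem h3
    have h5 : (I.image nz).card ≤ I.card := Finset.card_image_le
    have h6 : 0 < (I.image nz).card := Finset.card_pos.2 ⟨R, h3⟩
    omega
  -- two inequalities
  have hE1 : A.card + q + 3 ≤ 2 * I.card := by
    have h5 : q * (q - 1) + A.card ≤ k * (q + 1) + 2 * I.card := by omega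
    have h6 : q = k + 3 := by omega
    rw [h6] at h5
    have h7 : (k + 3) * (k + 3 - 1) = k * (k + 3 + 1) + (k + 6) := by
      have : k + 3 - 1 = k + 2 := by omega
      rw [this]; ring
    omega
  have hE2 : A.card + 2 * I.card ≤ 2 * k := by
    have h3 : ∑ i, (Finset.univ.filter (fun o : Option F => B (a i) (cp o) = 0)).card ≤
        ∑ i, (if i ∈ I then 0 else 2) := by
      apply Finset.sum_le_sum
      intro i _
      split_ifs with h
      · rw [Nat.le_zero, Finset.card_eq_zero, Finset.filter_eq_empty_iff]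
        intro o _
        rw [hI, Finset.mem_filter] at h
        exact conic_none (a i) h.2 o
      · exact conic_two h2' (a i) (ha i)
    have h4 : ∑ i, (if i ∈ I then 0 else 2) + 2 * I.card = 2 * k := by
      have h5 : 2 * I.card = ∑ i, (if i ∈ I then 2 else 0) := by
        rw [Finset.sum_ite_mem, Finset.univ_inter, Finset.sum_const, smul_eq_mul, mul_comm]
      rw [h5, ← Finset.sum_add_distrib]
      have : ∀ i, ((if i ∈ I then 0 else 2) + (if i ∈ I then 2 else 0) : ℕ) = 2 := by
        intro i
        split_ifs <;> rfl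
      rw [Finset.sum_congr rfl (fun i _ => this i), Finset.sum_const, Finset.card_univ, smul_eq_mul, mul_comm]
    omega
  obtain ⟨m, hm⟩ : ∃ m, m + A.card + 1 = q := ⟨q - 1 - A.card, by omega⟩
  obtain ⟨w, hw1, hw2⟩ := exists_forms h2' R hR2 m T (by omega)
    (by
      intro t ht
      rw [hT, Finset.mem_erase, Finset.mem_image] at ht
      obtain ⟨hne, i, hi, rfl⟩ := ht
      exact ⟨hnz2 i hi, hne⟩)
    (by
      intro S' a' ha' hS' hB'
      have := pts_card h2 S' a' ha' (by
        intro t ht
        have htT := hS' ht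
        rw [hT, Finset.mem_erase, Finset.mem_image] at htT
        obtain ⟨hne, i, hi, rfl⟩ := htT
        exact ⟨hnz2 i hi, hnzD i hi, hB' _ ht⟩)
      omega)
  -- the polynomial
  set f : MvPolynomial (Fin 3) F := ((∏ i, LF (a i)) * (∏ o ∈ A, LF (cp o))) * (DP * ∏ s, LF (w s)) with hf
  have hfdeg : f.totalDegree ≤ 2 * (q - 1) := by
    have h3 : (∏ i, LF (a i)).totalDegree ≤ k := by
      refine (MvPolynomial.totalDegree_finsetProd _ _).trans ?_
      refine (Finset.sum_le_card_nsmul _ _ 1 (fun i _ => deg_LF _)).trans ?_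
      rw [Finset.card_univ, smul_eq_mul, mul_one]
    have h4 : (∏ o ∈ A, LF (cp o)).totalDegree ≤ A.card := by
      refine (MvPolynomial.totalDegree_finsetProd _ _).trans ?_
      refine (Finset.sum_le_card_nsmul _ _ 1 (fun i _ => deg_LF _)).trans ?_
      rw [smul_eq_mul, mul_one]
    have h5 : (∏ s, LF (w s)).totalDegree ≤ m := by
      refine (MvPolynomial.totalDegree_finsetProd _ _).trans ?_
      refine (Finset.sum_le_card_nsmul _ _ 1 (fun i _ => deg_LF _)).trans ?_
      rw [Finset.card_univ, smul_eq_mul, mul_one, Fintype.card_fin]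
    have h6 := MvPolynomial.totalDegree_mul ((∏ i, LF (a i)) * (∏ o ∈ A, LF (cp o))) (DP * ∏ s, LF (w s))
    have h7 := MvPolynomial.totalDegree_mul (∏ i, LF (a i)) (∏ o ∈ A, LF (cp o))
    have h8 := MvPolynomial.totalDegree_mul DP (∏ s, LF (w s))
    have h9 : (DP : MvPolynomial (Fin 3) F).totalDegree ≤ 2 := deg_DP
    rw [← hf] at h6
    omega
  have hsum0 : ∑ z : Fin 3 → F, MvPolynomial.eval z f = 0 := by
    apply MvPolynomial.sum_eval_eq_zero
    rw [Fintype.card_fin]
    omega
  have heval : ∀ z, MvPolynomial.eval z f =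
      ((∏ i, B (a i) z) * (∏ o ∈ A, B (cp o) z)) * (D z * ∏ s, B (w s) z) := by
    intro z
    rw [hf, map_mul, map_mul, map_mul, map_prod, map_prod, map_prod, eval_DP]
    simp only [eval_LF]
  -- vanishing
  have hvan : ∀ z, (∀ l : F, l ≠ 0 → z ≠ l • R) → MvPolynomial.eval z f = 0 := by
    intro z hz
    rw [heval]
    by_cases hD0 : D z = 0
    · rw [hD0]; ring
    by_cases hsq : IsSquare (D z)
    · obtain ⟨i, h | ⟨N, hN0, hND, hNa, hNz⟩⟩ := K2 z hD0 hsq
      · rw [Finset.prod_eq_zero (Finset.mem_univ i) h]; ring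
      · obtain ⟨o, l, hl0, rfl⟩ := exists_cp hN0 hND
        rw [B_smul] at hNa
        have h3 := (mul_eq_zero.1 hNa).resolve_left hl0
        have hoA : o ∈ A := by
          rw [hA, Finset.mem_filter]
          exact ⟨Finset.mem_univ _, i, h3⟩
        rw [B_comm, B_smul] at hNz
        have h4 := (mul_eq_zero.1 hNz).resolve_left hl0
        rw [B_comm] at h4
        rw [Finset.prod_eq_zero hoA h4]; ring
    · obtain ⟨i, h | ⟨c', h⟩⟩ := K1 z hsq
      · rw [Finset.prod_eq_zero (Finset.mem_univ i) h]; ring
      · have hiI : i ∈ I := by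
          rw [hI, Finset.mem_filter]
          refine ⟨Finset.mem_univ _, fun h3 => hsq ?_⟩
          rw [h, D_smul]
          exact (IsSquare.sq c').mul h3
        have hai : a i = (a i 2) • nz i := by
          have h3 : a i 2 ≠ 0 := hz2 _ (by rw [hI, Finset.mem_filter] at hiI; exact hiI.2)
          simp only [hnz]
          rw [smul_smul, mul_inv_cancel₀ h3, one_smul]
        have hzn : z = (c' * a i 2) • nz i := by
          rw [h, ← smul_smul, ← hai]
        have hl0 : c' * a i 2 ≠ 0 := by
          intro h3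
          apply hD0
          rw [hzn, h3, D_smul]; ring
        have hne : nz i ≠ R := fun h3 => hz _ hl0 (by rw [← h3]; exact hzn)
        have hT' : nz i ∈ T := by
          rw [hT, Finset.mem_erase]
          exact ⟨hne, Finset.mem_image_of_mem _ hiI⟩
        obtain ⟨s, hs⟩ := hw2 _ hT'
        have h4 : B (w s) z = 0 := by
          rw [hzn, B_smul, hs, mul_zero]
        rw [Finset.prod_eq_zero (Finset.mem_univ s) h4]; ring
  have hRne : MvPolynomial.eval R f ≠ 0 := by
    rw [heval]
    refine mul_ne_zero (mul_ne_zero ?_ ?_) (mul_ne_zero ?_ ?_)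
    · exact Finset.prod_ne_zero_iff.2 (fun i _ => hRB i)
    · refine Finset.prod_ne_zero_iff.2 (fun o _ => ?_)
      rw [B_comm]
      exact conic_none R (hnzD i0 hI0) o
    · intro h3
      exact hnzD i0 hI0 (by rw [← hRdef, h3]; exact IsSquare.zero)
    · exact Finset.prod_ne_zero_iff.2 (fun s _ => hw1 s)
  have hRmul : ∀ l : F, l ≠ 0 → MvPolynomial.eval (l • R) f = MvPolynomial.eval R f := by
    intro l hl0
    rw [heval, heval]
    simp only [B_smul, D_smul, Finset.prod_mul_distrib, Finset.prod_const, Finset.card_univ, Fintype.card_fin]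
    have h3 : l ^ (2 * (q - 1)) = 1 := by
      rw [mul_comm, pow_mul, hq, FiniteField.pow_card_sub_one_eq_one l hl0, one_pow]
    have h4 : l ^ (2 * (q - 1)) = l ^ k * l ^ A.card * (l ^ 2 * l ^ m) := by
      rw [← pow_add, ← pow_add, ← pow_add]
      congr 1
      omega
    rw [← hk]
    calc _ = (l ^ k * l ^ A.card * (l ^ 2 * l ^ m)) * (((∏ i, B (a i) R) * (∏ o ∈ A, B (cp o) R)) *
          (D R * ∏ s, B (w s) R)) := by ring
      _ = _ := by rw [← h4, h3, one_mul]
  -- the sum is `(q - 1)` times the value at `R`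
  have hR0' : R ≠ 0 := by
    intro h3
    rw [h3] at hR2
    exact zero_ne_one hR2
  have hsum1 : ∑ z : Fin 3 → F, MvPolynomial.eval z f = ∑ l ∈ (Finset.univ.erase (0 : F)), MvPolynomial.eval (l • R) f := by
    symm
    rw [← Finset.sum_image (f := fun z => MvPolynomial.eval z f) (g := fun l : F => l • R)
      (fun l _ l' _ h => smul_left_injective F hR0' h)]
    apply Finset.sum_subset (Finset.subset_univ _)
    intro z _ hz
    apply hvan
    intro l hl0 h
    apply hz
    rw [Finset.mem_image]
    exact ⟨l, Finset.mem_erase.2 ⟨hl0, Finset.mem_univ _⟩, h.symm⟩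
  rw [hsum0, Finset.sum_congr rfl (fun l hl0 => hRmul l (Finset.ne_of_mem_erase hl0)), Finset.sum_const,
    Finset.card_erase_of_mem (Finset.mem_univ _), Finset.card_univ] at hsum1
  have h5 : ((Fintype.card F - 1 : ℕ) : F) = -1 := by
    rw [Nat.cast_sub (by omega), FiniteField.cast_card_eq_zero]
    simp
  rw [nsmul_eq_mul, h5] at hsum1
  apply hRne
  linear_combination hsum1

end Pool.Agent.SpreadPGL
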