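import Mathlib

/-!
# MP_9e452d_al: the spread of a group
-/

set_option autoImplicit false

namespace Pool.Agent.SpreadPGL

/-- For all `x 1, ..., x k` in `G`, all different from `1`, there is `y` in `G` such that `x i` and `y` generate
`G` for every `i`. -/
def SpreadAtLeast (G : Type*) [Group G] (k : ℕ) : Prop :=
  ∀ x : Fin k → G, (∀ i, x i ≠ 1) → ∃ y : G, ∀ i, Subgroup.closure {x i, y} = ⊤

/-- `s` is the spread of `G`: the largest `k` with `SpreadAtLeast G k` -/
def IsSpread (G : Type*) [Group G] (s : ℕ) : Prop := IsGreatest {k | SpreadAtLeast G k} s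

end Pool.Agent.SpreadPGL
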