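import Mathlib

/-!
# MP_9e452d_al: subgroups of `PGL(2, F)` in terms of matrices
-/

set_option autoImplicit false

namespace Pool.Agent.SpreadPGL

open Matrix MatrixGroups

variable {F : Type*} [Field F]

/-- the class of the invertible matrix `A` lies in `H` -/
def InH (H : Subgroup (Matrix.ProjGenLinGroup (Fin 2) F)) (A : Matrix (Fin 2) (Fin 2) F) : Prop :=
  ∃ g : GL (Fin 2) F, (g : Matrix (Fin 2) (Fin 2) F) = A ∧ ProjGenLinGroup.mk g ∈ H

theorem InH.det_ne {H : Subgroup (Matrix.ProjGenLinGroup (Fin 2) F)} {A : Matrix (Fin 2) (Fin 2) F} (h : InH H A) :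
    A.det ≠ 0 := by
  obtain ⟨g, rfl, -⟩ := h
  exact g.det_ne_zero

theorem InH.mul {H : Subgroup (Matrix.ProjGenLinGroup (Fin 2) F)} {A A' : Matrix (Fin 2) (Fin 2) F} (h : InH H A)
    (h' : InH H A') : InH H (A * A') := by
  obtain ⟨g, rfl, hg⟩ := h
  obtain ⟨g', rfl, hg'⟩ := h'
  exact ⟨g * g', rfl, by rw [map_mul]; exact H.mul_mem hg hg'⟩

theorem InH.smul {H : Subgroup (Matrix.ProjGenLinGroup (Fin 2) F)} {A : Matrix (Fin 2) (Fin 2) F} (h : InH H A)
    {c : F} (hc : c ≠ 0) : InH H (c • A) := by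
  obtain ⟨g, rfl, hg⟩ := h
  refine ⟨g * GeneralLinearGroup.scalar (Fin 2) (Units.mk0 c hc), ?_, ?_⟩
  · ext i j
    simp [Matrix.mul_apply, Matrix.scalar_apply, Matrix.diagonal, mul_comm]
  · have : ProjGenLinGroup.mk (g * GeneralLinearGroup.scalar (Fin 2) (Units.mk0 c hc)) = ProjGenLinGroup.mk g := by
      rw [map_mul, ProjGenLinGroup.mk_scalar, mul_one]
    rw [this]
    exact hg

theorem InH.adj {H : Subgroup (Matrix.ProjGenLinGroup (Fin 2) F)} {A : Matrix (Fin 2) (Fin 2) F} (h : InH H A) :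
    InH H A.adjugate := by
  have hd := h.det_ne
  obtain ⟨g, rfl, hg⟩ := h
  have h1 : InH H ((g⁻¹ : GL (Fin 2) F) : Matrix (Fin 2) (Fin 2) F) := ⟨g⁻¹, rfl, by rw [map_inv]; exact H.inv_mem hg⟩
  have h2 : (g : Matrix (Fin 2) (Fin 2) F).adjugate = (g : Matrix (Fin 2) (Fin 2) F).det •
      ((g⁻¹ : GL (Fin 2) F) : Matrix (Fin 2) (Fin 2) F) := by
    rw [Matrix.coe_units_inv, Matrix.inv_def, smul_smul, Ring.mul_inverse_cancel _ (isUnit_iff_ne_zero.2 hd), one_smul]
  rw [h2]
  exact h1.smul hd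

theorem eq_top_of_InH {H : Subgroup (Matrix.ProjGenLinGroup (Fin 2) F)}
    (h : ∀ A : Matrix (Fin 2) (Fin 2) F, A.det ≠ 0 → InH H A) : H = ⊤ := by
  rw [eq_top_iff]
  intro x _
  obtain ⟨g, rfl⟩ := ProjGenLinGroup.mk_surjective x
  obtain ⟨g', hg', hH⟩ := h g g.det_ne_zero
  have : g' = g := Units.ext hg'
  rw [← this]
  exact hH

theorem det2 (a b c d : F) : (!![a, b; c, d]).det = a * d - b * c := by
  rw [Matrix.det_fin_two_of]

theorem adj2 (a b c d : F) : (!![a, b; c, d]).adjugate = !![d, -b; -c, a] := Matrix.adjugate_fin_two_of a b c d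

theorem mul2 (a b c d a' b' c' d' : F) :
    !![a, b; c, d] * !![a', b'; c', d'] = !![a * a' + b * c', a * b' + b * d'; c * a' + d * c', c * b' + d * d'] := by
  rw [Matrix.mul_fin_two]

theorem smul2 (r a b c d : F) : r • !![a, b; c, d] = !![r * a, r * b; r * c, r * d] := by
  simp [Matrix.smul_of, Matrix.smul_cons]

theorem eta2 (A : Matrix (Fin 2) (Fin 2) F) : A = !![A 0 0, A 0 1; A 1 0, A 1 1] := Matrix.eta_fin_two A

/-- unipotents and one nonsquare determinant generate -/
theorem gen_unip [Fintype F] [DecidableEq F] {H : Subgroup (Matrix.ProjGenLinGroup (Fin 2) F)}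
    (hu : ∀ t : F, InH H !![1, t; 0, 1]) (hl : ∀ t : F, InH H !![1, 0; t, 1])
    (hd : ∃ A, InH H A ∧ ¬ IsSquare A.det) : H = ⊤ := by
  have h0 : ∀ a b c d : F, c ≠ 0 → a * d - b * c = 1 → InH H !![a, b; c, d] := by
    intro a b c d hc hdet
    have := ((hu ((a - 1) / c)).mul (hl c)).mul (hu ((d - 1) / c))
    rw [mul2, mul2] at this
    have e : (!![a, b; c, d] : Matrix (Fin 2) (Fin 2) F) = !![(1 * 1 + (a - 1) / c * c) * 1 + (1 * 0 + (a - 1) / c * 1) * 0,
        (1 * 1 + (a - 1) / c * c) * ((d - 1) / c) + (1 * 0 + (a - 1) / c * 1) * 1;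
        (0 * 1 + 1 * c) * 1 + (0 * 0 + 1 * 1) * 0, (0 * 1 + 1 * c) * ((d - 1) / c) + (0 * 0 + 1 * 1) * 1] := by
      ext i j
      fin_cases i <;> fin_cases j
      · simp; field_simp; ring
      · simp; field_simp; linear_combination -hdet
      · simp
      · simp; field_simp; ring
    rw [e]
    exact this
  have h1 : ∀ a b c d : F, a * d - b * c = 1 → InH H !![a, b; c, d] := by
    intro a b c d hdet
    by_cases hc : c = 0
    · have ha : a ≠ 0 := by
        intro h
        rw [h, hc] at hdet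
        apply one_ne_zero (α := F)
        linear_combination -hdet
      have := (hl (-1)).mul (h0 a b a (b + d) ha (by linear_combination hdet + b * hc))
      rw [mul2] at this
      have e : (!![a, b; c, d] : Matrix (Fin 2) (Fin 2) F) = !![1 * a + 0 * a, 1 * b + 0 * (b + d);
          -1 * a + 1 * a, -1 * b + 1 * (b + d)] := by
        rw [hc]
        ext i j
        fin_cases i <;> fin_cases j <;> simp
      rw [e]
      exact this
    · exact h0 a b c d hc hdet
  have h2 : ∀ A : Matrix (Fin 2) (Fin 2) F, A.det ≠ 0 → IsSquare A.det → InH H A := by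
    intro A hA ⟨r, hr⟩
    have hr0 : r ≠ 0 := by
      intro h
      rw [h, mul_zero] at hr
      exact hA hr
    rw [eta2 A] at hr ⊢
    rw [det2] at hr
    have := (h1 (r⁻¹ * A 0 0) (r⁻¹ * A 0 1) (r⁻¹ * A 1 0) (r⁻¹ * A 1 1) (by field_simp; linear_combination hr)).smul hr0
    rw [smul2] at this
    have e : ∀ x : F, r * (r⁻¹ * x) = x := fun x => by rw [← mul_assoc, mul_inv_cancel₀ hr0, one_mul]
    simpa only [e] using this
  apply eq_top_of_InH
  intro A hA
  by_cases hsq : IsSquare A.det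
  · exact h2 A hA hsq
  · obtain ⟨C, hC, hCd⟩ := hd
    have hC0 := hC.det_ne
    have hprod : IsSquare (C.adjugate * A).det := by
      rw [Matrix.det_mul, Matrix.det_adjugate, Fintype.card_fin]
      have e1 : quadraticChar F C.det = -1 := quadraticChar_neg_one_iff_not_isSquare.2 hCd
      have e2 : quadraticChar F A.det = -1 := quadraticChar_neg_one_iff_not_isSquare.2 hsq
      have e3 : C.det ^ (2 - 1) = C.det := by simp
      rw [e3, ← quadraticChar_one_iff_isSquare (mul_ne_zero hC0 hA), map_mul, e1, e2]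
      norm_num
    have h3 := h2 (C.adjugate * A) (by
      rw [Matrix.det_mul, Matrix.det_adjugate, Fintype.card_fin]
      exact mul_ne_zero (by simpa using hC0) hA) hprod
    have h4 := (hC.mul h3).smul (inv_ne_zero hC0)
    rw [← Matrix.mul_assoc, Matrix.mul_adjugate, Matrix.smul_mul, Matrix.one_mul, smul_smul,
      inv_mul_cancel₀ hC0, one_smul] at h4
    exact h4

end Pool.Agent.SpreadPGL
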