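import Mathlib
import Pool.Agent.Lib_MP_9e452d.Gen

/-!
# MP_9e452d_al: mates of elements of order `q - 1`
-/

set_option autoImplicit false

namespace Pool.Agent.SpreadPGL

open Matrix MatrixGroups

variable {F : Type*} [Field F]

theorem InH.congr {H : Subgroup (Matrix.ProjGenLinGroup (Fin 2) F)} {a b c d a' b' c' d' : F}
    (h : InH H !![a, b; c, d]) (h1 : a = a') (h2 : b = b') (h3 : c = c') (h4 : d = d') : InH H !![a', b'; c', d'] := by
  rw [← h1, ← h2, ← h3, ← h4]; exact h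

/-- from an element fixing infinity but not zero -/
theorem gen_of_borel [Fintype F] [DecidableEq F] (h2 : ringChar F ≠ 2) {H : Subgroup (Matrix.ProjGenLinGroup (Fin 2) F)}
    {a b d : F} (hA : InH H !![a, b; 1, d]) (ht : ∀ β : F, β ≠ 0 → InH H !![β, 0; 0, 1])
    {p r s : F} (hr : r ≠ 0) (hB : InH H !![p, r; 0, s]) : H = ⊤ := by
  have hps := hB.det_ne
  rw [det2, mul_zero, sub_zero] at hps
  have hp : p ≠ 0 := left_ne_zero_of_mul hps
  have hs : s ≠ 0 := right_ne_zero_of_mul hps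
  have hu0 : InH H !![1, r / p; 0, 1] := by
    have := ((ht (s / p) (div_ne_zero hs hp)).mul hB).smul (inv_ne_zero hs)
    rw [mul2, smul2] at this
    refine this.congr ?_ ?_ ?_ ?_
    · field_simp; ring
    · field_simp; ring
    · ring
    · field_simp; ring
  have hone : InH H !![1, 0; 0, 1] := ht 1 one_ne_zero
  have hu : ∀ t : F, InH H !![1, t; 0, 1] := by
    intro t
    by_cases ht0 : t = 0
    · rw [ht0]; exact hone
    · have hβ : t * p / r ≠ 0 := div_ne_zero (mul_ne_zero ht0 hp) hr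
      have := (((ht _ hβ).mul hu0).mul (ht _ hβ).adj).smul (inv_ne_zero hβ)
      rw [adj2, mul2, mul2, smul2] at this
      refine this.congr ?_ ?_ ?_ ?_
      · field_simp; ring
      · field_simp; ring
      · ring
      · field_simp; ring
  have hΔ := hA.det_ne
  rw [det2] at hΔ
  have hl : ∀ t : F, InH H !![1, 0; t, 1] := by
    intro t
    have := (((hu (-a)).mul ((hA.mul (hu (-(t * (a * d - b * 1))))).mul hA.adj)).mul (hu a)).smul (inv_ne_zero hΔ)
    rw [adj2, mul2, mul2, mul2, mul2, smul2] at this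
    refine this.congr ?_ ?_ ?_ ?_
    · rw [inv_mul_eq_iff_eq_mul₀ hΔ]; ring
    · rw [inv_mul_eq_iff_eq_mul₀ hΔ]; ring
    · rw [inv_mul_eq_iff_eq_mul₀ hΔ]; ring
    · rw [inv_mul_eq_iff_eq_mul₀ hΔ]; ring
  obtain ⟨β, hβ⟩ := FiniteField.exists_nonsquare h2
  have hβ0 : β ≠ 0 := fun h => hβ (h ▸ IsSquare.zero)
  exact gen_unip hu hl ⟨_, ht β hβ0, by rw [det2]; simpa using hβ⟩

theorem gen_split1 [Fintype F] [DecidableEq F] (h2 : ringChar F ≠ 2) (hq : 7 ≤ Fintype.card F)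
    {H : Subgroup (Matrix.ProjGenLinGroup (Fin 2) F)} {a b d : F} (hA : InH H !![a, b; 1, d])
    (ht : ∀ β : F, β ≠ 0 → InH H !![β, 0; 0, 1]) (hb : b ≠ 0) (hne : ¬ (a = 0 ∧ d = 0)) : H = ⊤ := by
  have h2' : (2 : F) ≠ 0 := Ring.two_ne_zero h2
  have hm1 : (-1 : F) ≠ 0 := neg_ne_zero.2 one_ne_zero
  by_cases ha : a = 0
  · have hd : d ≠ 0 := fun h => hne ⟨ha, h⟩
    subst ha
    have := hA.adj.mul ((ht (-1) hm1).mul hA)
    rw [adj2, mul2, mul2] at this
    refine gen_of_borel h2 hA ht (p := -b) (r := -(2 * b * d)) (s := b)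
      (neg_ne_zero.2 (mul_ne_zero (mul_ne_zero h2' hb) hd)) (this.congr ?_ ?_ ?_ ?_)
    · ring
    · ring
    · ring
    · ring
  by_cases hd : d = 0
  · subst hd
    have := hA.mul ((ht (-1) hm1).mul hA.adj)
    rw [adj2, mul2, mul2] at this
    refine gen_of_borel h2 hA ht (p := -b) (r := 2 * a * b) (s := b)
      (mul_ne_zero (mul_ne_zero h2' ha) hb) (this.congr ?_ ?_ ?_ ?_)
    · ring
    · ring
    · ring
    · ring
  have hΔ := hA.det_ne
  rw [det2, mul_one] at hΔ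
  -- a good parameter
  obtain ⟨β, hβ⟩ : ∃ β : F, β * (a * β + d) * (a ^ 2 * β + b) * (a ^ 2 * β ^ 2 + (a * d + b) * β + d ^ 2) ≠ 0 := by
    open Polynomial in
    set P : F[X] := (C 1 * X + C 0) * (C a * X + C d) * (C (a ^ 2) * X + C b) *
      (C (a ^ 2) * X ^ 2 + C (a * d + b) * X + C (d ^ 2)) with hP
    have n1 : (C (1 : F) * X + C 0 : F[X]).natDegree = 1 := natDegree_linear one_ne_zero
    have n2 : (C a * X + C d : F[X]).natDegree = 1 := natDegree_linear ha
    have n3 : (C (a ^ 2) * X + C b : F[X]).natDegree = 1 := natDegree_linear (pow_ne_zero 2 ha)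
    have n4 : (C (a ^ 2) * X ^ 2 + C (a * d + b) * X + C (d ^ 2) : F[X]).natDegree = 2 :=
      natDegree_quadratic (pow_ne_zero 2 ha)
    have z1 : (C (1 : F) * X + C 0 : F[X]) ≠ 0 := fun h => by rw [h] at n1; simp at n1
    have z2 : (C a * X + C d : F[X]) ≠ 0 := fun h => by rw [h] at n2; simp at n2
    have z3 : (C (a ^ 2) * X + C b : F[X]) ≠ 0 := fun h => by rw [h] at n3; simp at n3
    have z4 : (C (a ^ 2) * X ^ 2 + C (a * d + b) * X + C (d ^ 2) : F[X]) ≠ 0 := fun h => by rw [h] at n4; simp at n4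
    have hP0 : P ≠ 0 := mul_ne_zero (mul_ne_zero (mul_ne_zero z1 z2) z3) z4
    have hdeg : P.natDegree = 5 := by
      rw [hP, natDegree_mul (mul_ne_zero (mul_ne_zero z1 z2) z3) z4, natDegree_mul (mul_ne_zero z1 z2) z3,
        natDegree_mul z1 z2, n1, n2, n3, n4]
    obtain ⟨β, hβ⟩ := exists_eval_ne_zero_of_natDegree_lt_card P hP0 (by
      rw [hdeg, Cardinal.mk_fintype]
      exact_mod_cast (by omega : 5 < Fintype.card F))
    refine ⟨β, ?_⟩
    rw [hP] at hβ
    simpa using hβ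
  have h4 := right_ne_zero_of_mul hβ
  have h3 := right_ne_zero_of_mul (left_ne_zero_of_mul hβ)
  have h5 := right_ne_zero_of_mul (left_ne_zero_of_mul (left_ne_zero_of_mul hβ))
  have h6 := left_ne_zero_of_mul (left_ne_zero_of_mul (left_ne_zero_of_mul hβ))
  have hα : - d * (a * β + d) / (a ^ 2 * β + b) ≠ 0 := div_ne_zero (mul_ne_zero (neg_ne_zero.2 hd) h5) h3
  have := (hA.mul ((ht _ hα).mul (hA.mul ((ht _ h6).mul hA)))).smul h3
  rw [mul2, mul2, mul2, mul2, smul2] at this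
  refine gen_of_borel h2 hA ht (p := (a * β + d) * b * (a ^ 2 * β + b) - a * d * (a * β + d) * (a ^ 2 * β + b))
      (r := -(b * (a * d - b) * (a ^ 2 * β ^ 2 + (a * d + b) * β + d ^ 2)))
      (s := (a ^ 2 * β + b) * (d * (b * β + d ^ 2)) - d * (a * β + d) * (b * (a * β + d)))
      (neg_ne_zero.2 (mul_ne_zero (mul_ne_zero hb hΔ) h4)) (this.congr ?_ ?_ ?_ ?_)
  · field_simp; ring
  · field_simp; ring
  · field_simp; ring
  · field_simp; ring

/-- a split torus and an element neither fixing nor swapping its fixed points generate -/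
theorem gen_split [Fintype F] [DecidableEq F] (h2 : ringChar F ≠ 2) (hq : 7 ≤ Fintype.card F)
    {H : Subgroup (Matrix.ProjGenLinGroup (Fin 2) F)} {a b c d : F} (hA : InH H !![a, b; c, d])
    (ht : ∀ β : F, β ≠ 0 → InH H !![β, 0; 0, 1]) (hb : b ≠ 0) (hc : c ≠ 0) (hne : ¬ (a = 0 ∧ d = 0)) : H = ⊤ := by
  have := hA.smul (inv_ne_zero hc)
  rw [smul2, inv_mul_cancel₀ hc] at this
  refine gen_split1 h2 hq this ht (mul_ne_zero (inv_ne_zero hc) hb) ?_
  rintro ⟨h3, h4⟩
  exact hne ⟨(mul_eq_zero.1 h3).resolve_left (inv_ne_zero hc), (mul_eq_zero.1 h4).resolve_left (inv_ne_zero hc)⟩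

end Pool.Agent.SpreadPGL
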