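import Mathlib
import Pool.Agent.Lib_MP_9e452d.Split

/-!
# MP_9e452d_al: mates of elements of order `q + 1`
-/

set_option autoImplicit false

namespace Pool.Agent.SpreadPGL

open Matrix MatrixGroups

variable {F : Type*} [Field F]

/-- `a + b M` for the traceless matrix `M` -/
def KK (m0 m1 m2 a b : F) : Matrix (Fin 2) (Fin 2) F := !![a + b * m0, b * m1; b * m2, a - b * m0]

theorem KK_det (m0 m1 m2 a b : F) : (KK m0 m1 m2 a b).det = a ^ 2 - (m0 ^ 2 + m1 * m2) * b ^ 2 := by
  unfold KK
  rw [det2]; ring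

theorem KK_det_ne {m0 m1 m2 a b : F} (hδ : ¬ IsSquare (m0 ^ 2 + m1 * m2)) (h : ¬ (a = 0 ∧ b = 0)) :
    (KK m0 m1 m2 a b).det ≠ 0 := by
  rw [KK_det]
  intro h0
  by_cases hb : b = 0
  · rw [hb] at h0
    exact h ⟨by simpa using h0, hb⟩
  · apply hδ
    refine ⟨a / b, ?_⟩
    field_simp
    linear_combination -h0

/-- transitivity of `K` on nonzero vectors -/
theorem KK_trans {m0 m1 m2 : F} (hδ : ¬ IsSquare (m0 ^ 2 + m1 * m2)) (u0 u1 v0 v1 : F) (hu : ¬ (u0 = 0 ∧ u1 = 0))
    (hv : ¬ (v0 = 0 ∧ v1 = 0)) :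
    ∃ a b : F, ¬ (a = 0 ∧ b = 0) ∧ (a + b * m0) * u0 + b * m1 * u1 = v0 ∧ b * m2 * u0 + (a - b * m0) * u1 = v1 := by
  have hm2 : m2 ≠ 0 := by
    intro h
    apply hδ
    rw [h, mul_zero, add_zero]
    exact IsSquare.sq _
  -- the determinant of `(u, M u)`
  have hdet : m2 * u0 ^ 2 - 2 * m0 * u0 * u1 - m1 * u1 ^ 2 ≠ 0 := by
    intro h0
    by_cases h1 : u1 = 0
    · rw [h1] at h0
      have : u0 = 0 := by
        have : m2 * u0 ^ 2 = 0 := by linear_combination h0
        simpa [hm2] using this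
      exact hu ⟨this, h1⟩
    · apply hδ
      refine ⟨(m2 * u0 - m0 * u1) / u1, ?_⟩
      field_simp
      linear_combination -m2 * h0
  refine ⟨(v0 * (m2 * u0 - m0 * u1) - v1 * (m0 * u0 + m1 * u1)) / (m2 * u0 ^ 2 - 2 * m0 * u0 * u1 - m1 * u1 ^ 2),
    (u0 * v1 - u1 * v0) / (m2 * u0 ^ 2 - 2 * m0 * u0 * u1 - m1 * u1 ^ 2), ?_, ?_, ?_⟩
  · rintro ⟨ha, hb⟩
    rw [div_eq_zero_iff] at ha hb
    replace ha := ha.resolve_right hdet
    replace hb := hb.resolve_right hdet
    apply hv
    constructor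
    · apply (mul_eq_zero.1 (?_ : (m2 * u0 ^ 2 - 2 * m0 * u0 * u1 - m1 * u1 ^ 2) * v0 = 0)).resolve_left hdet
      linear_combination u0 * ha + (m0 * u0 + m1 * u1) * hb
    · apply (mul_eq_zero.1 (?_ : (m2 * u0 ^ 2 - 2 * m0 * u0 * u1 - m1 * u1 ^ 2) * v1 = 0)).resolve_left hdet
      linear_combination u1 * ha + (m2 * u0 - m0 * u1) * hb
  · rw [div_mul_eq_mul_div, div_mul_eq_mul_div, ← add_div, div_mul_eq_mul_div, div_mul_eq_mul_div, ← add_div,
      div_eq_iff hdet]
    ring
  · rw [div_mul_eq_mul_div, div_mul_eq_mul_div, div_mul_eq_mul_div, ← sub_div, div_mul_eq_mul_div, ← add_div,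
      div_eq_iff hdet]
    ring

/-- A nonsplit torus and an element not normalising it generate. -/
theorem gen_nonsplit [Fintype F] [DecidableEq F] (h2 : ringChar F ≠ 2) {H : Subgroup (Matrix.ProjGenLinGroup (Fin 2) F)}
    {m0 m1 m2 : F} (hδ : ¬ IsSquare (m0 ^ 2 + m1 * m2)) (hK : ∀ a b : F, ¬ (a = 0 ∧ b = 0) → InH H (KK m0 m1 m2 a b))
    {A : Matrix (Fin 2) (Fin 2) F} (hA : InH H A)
    (hne : ∀ l : F, A * !![m0, m1; m2, -m0] ≠ l • (!![m0, m1; m2, -m0] * A)) : H = ⊤ := by
  classical
  have hm2 : m2 ≠ 0 := by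
    intro h
    apply hδ
    rw [h, mul_zero, add_zero]
    exact IsSquare.sq _
  have hm1 : m1 ≠ 0 := by
    intro h
    apply hδ
    rw [h, zero_mul, add_zero]
    exact IsSquare.sq _
  have hone : InH H !![1, 0; 0, 1] := by
    refine (hK 1 0 (fun h => one_ne_zero h.1)).congr ?_ ?_ ?_ ?_ <;> ring
  -- closure properties of the Borel part
  have hV : ∀ t m v : F, InH H !![1, t; 0, m] → InH H !![1, v; 0, 1] → InH H !![1, m * v; 0, 1] := by
    intro t m v ht hv
    have hm : m ≠ 0 := by
      have := ht.det_ne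
      rw [det2] at this
      intro h
      apply this
      rw [h]; ring
    have := (ht.adj.mul (hv.mul ht)).smul (inv_ne_zero hm)
    rw [adj2, mul2, mul2, smul2] at this
    refine this.congr ?_ ?_ ?_ ?_
    · field_simp; ring
    · field_simp; ring
    · ring
    · field_simp; ring
  have hVadd : ∀ v v' : F, InH H !![1, v; 0, 1] → InH H !![1, v'; 0, 1] → InH H !![1, v + v'; 0, 1] := by
    intro v v' hv hv'
    have := hv.mul hv'
    rw [mul2] at this
    refine this.congr ?_ ?_ ?_ ?_ <;> ring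
  have hVneg : ∀ v : F, InH H !![1, v; 0, 1] → InH H !![1, -v; 0, 1] := by
    intro v hv
    have := hv.adj
    rw [adj2] at this
    refine this.congr ?_ ?_ ?_ ?_ <;> ring
  have hVdiff : ∀ t t' m : F, InH H !![1, t; 0, m] → InH H !![1, t'; 0, m] → InH H !![1, t' - t; 0, 1] := by
    intro t t' m ht ht'
    have hm : m ≠ 0 := by
      have := ht.det_ne
      rw [det2] at this
      intro h
      apply this
      rw [h]; ring
    have h3 := (ht'.mul ht.adj).smul (inv_ne_zero hm)
    rw [adj2, mul2, smul2] at h3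
    have h4 : InH H !![1, (t' - t) / m; 0, 1] := by
      refine h3.congr ?_ ?_ ?_ ?_
      · field_simp; ring
      · field_simp; ring
      · ring
      · field_simp; ring
    have h5 := hV t m _ ht h4
    refine h5.congr rfl ?_ rfl rfl
    field_simp
  -- `q + 1` elements of the Borel part
  have hΔ := hA.det_ne
  set C := A.adjugate with hC
  have hCdet : C.det ≠ 0 := hA.adj.det_ne
  have hAC : A * C = A.det • (1 : Matrix (Fin 2) (Fin 2) F) := Matrix.mul_adjugate A
  have hCA : C * A = A.det • (1 : Matrix (Fin 2) (Fin 2) F) := Matrix.adjugate_mul A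
  set kp : Option F → F × F := fun o => match o with
    | none => (1, 0)
    | some s => (s, 1) with hkp
  have hkp0 : ∀ o, ¬ ((kp o).1 = 0 ∧ (kp o).2 = 0) := by
    intro o
    cases o with
    | none => exact fun h => one_ne_zero h.1
    | some s => exact fun h => one_ne_zero h.2
  -- columns
  have hex : ∀ o : Option F, ∃ (x y t m : F), ¬ (x = 0 ∧ y = 0) ∧
      A * (KK m0 m1 m2 x y * (C * KK m0 m1 m2 (kp o).1 (kp o).2)) = A.det • !![1, t; 0, m] := by
    intro o
    set k := KK m0 m1 m2 (kp o).1 (kp o).2 with hk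
    have hCk : (C * k).det ≠ 0 := by
      rw [Matrix.det_mul]
      exact mul_ne_zero hCdet (KK_det_ne hδ (hkp0 o))
    have hu : ¬ ((C * k) 0 0 = 0 ∧ (C * k) 1 0 = 0) := by
      rintro ⟨h3, h4⟩
      apply hCk
      rw [Matrix.det_fin_two, h3, h4]; ring
    have hv : ¬ (C 0 0 = 0 ∧ C 1 0 = 0) := by
      rintro ⟨h3, h4⟩
      apply hCdet
      rw [Matrix.det_fin_two, h3, h4]; ring
    obtain ⟨x, y, hxy, e1, e2⟩ := KK_trans hδ _ _ _ _ hu hv
    set N := KK m0 m1 m2 x y * (C * k) with hN
    have hN0 : N 0 0 = C 0 0 := by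
      rw [hN, Matrix.mul_apply, Fin.sum_univ_two]
      simpa [KK] using e1
    have hN1 : N 1 0 = C 1 0 := by
      rw [hN, Matrix.mul_apply, Fin.sum_univ_two]
      simpa [KK] using e2
    refine ⟨x, y, (A * N) 0 1 / A.det, (A * N) 1 1 / A.det, hxy, ?_⟩
    have f0 : (A * N) 0 0 = A.det := by
      have := congrFun (congrFun hAC 0) 0
      rw [Matrix.mul_apply, Fin.sum_univ_two] at this ⊢
      rw [hN0, hN1, this]
      simp
    have f1 : (A * N) 1 0 = 0 := by
      have := congrFun (congrFun hAC 1) 0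
      rw [Matrix.mul_apply, Fin.sum_univ_two] at this ⊢
      rw [hN0, hN1, this]
      simp
    ext i j
    fin_cases i <;> fin_cases j
    · simpa using f0
    · simp; field_simp; rw [hN]
    · simpa using f1
    · simp; field_simp; rw [hN]
  choose x y t m hxy hg using hex
  have hborel : ∀ o, InH H !![1, t o; 0, m o] := by
    intro o
    have h3 := (hA.mul ((hK (x o) (y o) (hxy o)).mul (hA.adj.mul (hK _ _ (hkp0 o))))).smul (inv_ne_zero hΔ)
    rw [← hC, hg, smul_smul, inv_mul_cancel₀ hΔ, one_smul] at h3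
    exact h3
  have hinj : ∀ o o', t o = t o' → m o = m o' → o = o' := by
    intro o o' htt hmm
    have h3 : A * (KK m0 m1 m2 (x o) (y o) * (C * KK m0 m1 m2 (kp o).1 (kp o).2)) =
        A * (KK m0 m1 m2 (x o') (y o') * (C * KK m0 m1 m2 (kp o').1 (kp o').2)) := by
      rw [hg, hg, htt, hmm]
    have hAu : IsUnit A.det := isUnit_iff_ne_zero.2 hΔ
    have h4 : KK m0 m1 m2 (x o) (y o) * (C * KK m0 m1 m2 (kp o).1 (kp o).2) =
        KK m0 m1 m2 (x o') (y o') * (C * KK m0 m1 m2 (kp o').1 (kp o').2) := by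
      have := congrArg (fun Z => C * Z) h3
      simp only [← Matrix.mul_assoc] at this
      rw [hCA] at this
      simp only [Matrix.smul_mul, Matrix.one_mul] at this
      have := smul_right_injective _ hΔ this
      simpa only [Matrix.mul_assoc] using this
    -- products in `K`
    set X := x o * x o' - (m0 ^ 2 + m1 * m2) * (y o * y o') with hX
    set Y := x o' * y o - x o * y o' with hY
    set X' := (kp o).1 * (kp o').1 - (m0 ^ 2 + m1 * m2) * ((kp o).2 * (kp o').2) with hX'
    set Y' := (kp o').2 * (kp o).1 - (kp o').1 * (kp o).2 with hY'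
    have p1 : KK m0 m1 m2 (x o') (-(y o')) * KK m0 m1 m2 (x o) (y o) = KK m0 m1 m2 X Y := by
      simp only [KK]
      rw [mul2, hX, hY]
      congr 1
      ext i j
      fin_cases i <;> fin_cases j <;> simp <;> ring
    have p2 : KK m0 m1 m2 (kp o').1 (kp o').2 * KK m0 m1 m2 (kp o).1 (-(kp o).2) = KK m0 m1 m2 X' Y' := by
      simp only [KK]
      rw [mul2, hX', hY']
      congr 1
      ext i j
      fin_cases i <;> fin_cases j <;> simp <;> ring
    have p3 : KK m0 m1 m2 (x o') (-(y o')) * KK m0 m1 m2 (x o') (y o') =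
        ((KK m0 m1 m2 (x o') (y o')).det) • (1 : Matrix (Fin 2) (Fin 2) F) := by
      rw [KK_det]
      simp only [KK]
      rw [mul2]
      ext i j
      fin_cases i <;> fin_cases j <;> simp <;> ring
    have p4 : KK m0 m1 m2 (kp o).1 (kp o).2 * KK m0 m1 m2 (kp o).1 (-(kp o).2) =
        ((KK m0 m1 m2 (kp o).1 (kp o).2).det) • (1 : Matrix (Fin 2) (Fin 2) F) := by
      rw [KK_det]
      simp only [KK]
      rw [mul2]
      ext i j
      fin_cases i <;> fin_cases j <;> simp <;> ring
    set d1 := (KK m0 m1 m2 (kp o).1 (kp o).2).det with hd1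
    set d2 := (KK m0 m1 m2 (x o') (y o')).det with hd2
    have hd1' : d1 ≠ 0 := KK_det_ne hδ (hkp0 o)
    have hd2' : d2 ≠ 0 := KK_det_ne hδ (hxy o')
    have h5 : d1 • (KK m0 m1 m2 X Y * C) = d2 • (C * KK m0 m1 m2 X' Y') := by
      have e : KK m0 m1 m2 (x o') (-(y o')) * (KK m0 m1 m2 (x o) (y o) * (C * KK m0 m1 m2 (kp o).1 (kp o).2)) *
          KK m0 m1 m2 (kp o).1 (-(kp o).2) = KK m0 m1 m2 (x o') (-(y o')) *
          (KK m0 m1 m2 (x o') (y o') * (C * KK m0 m1 m2 (kp o').1 (kp o').2)) * KK m0 m1 m2 (kp o).1 (-(kp o).2) := by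
        rw [h4]
      have l : KK m0 m1 m2 (x o') (-(y o')) * (KK m0 m1 m2 (x o) (y o) * (C * KK m0 m1 m2 (kp o).1 (kp o).2)) *
          KK m0 m1 m2 (kp o).1 (-(kp o).2) = d1 • (KK m0 m1 m2 X Y * C) := by
        rw [← Matrix.mul_assoc, p1, ← Matrix.mul_assoc, Matrix.mul_assoc, p4, Matrix.mul_smul, Matrix.mul_one]
      have r : KK m0 m1 m2 (x o') (-(y o')) * (KK m0 m1 m2 (x o') (y o') * (C * KK m0 m1 m2 (kp o').1 (kp o').2)) *
          KK m0 m1 m2 (kp o).1 (-(kp o).2) = d2 • (C * KK m0 m1 m2 X' Y') := by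
        rw [← Matrix.mul_assoc, p3, Matrix.smul_mul, Matrix.one_mul, Matrix.smul_mul, Matrix.mul_assoc, p2]
      rw [l, r] at e
      exact e
    -- traces
    have h6 : d1 * X = d2 * X' := by
      have e : (d1 • (KK m0 m1 m2 X Y * C) * A).trace = (d2 • (C * KK m0 m1 m2 X' Y') * A).trace := by rw [h5]
      have el : (d1 • (KK m0 m1 m2 X Y * C) * A).trace = d1 * (A.det * (KK m0 m1 m2 X Y).trace) := by
        rw [Matrix.smul_mul, Matrix.trace_smul, Matrix.mul_assoc, hCA, Matrix.mul_smul, Matrix.mul_one,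
          Matrix.trace_smul, smul_eq_mul, smul_eq_mul]
      have er : (d2 • (C * KK m0 m1 m2 X' Y') * A).trace = d2 * (A.det * (KK m0 m1 m2 X' Y').trace) := by
        rw [Matrix.smul_mul, Matrix.trace_smul, Matrix.trace_mul_comm, ← Matrix.mul_assoc, hAC, Matrix.smul_mul,
          Matrix.one_mul, Matrix.trace_smul, smul_eq_mul, smul_eq_mul]
      rw [el, er] at e
      have tr : ∀ a b : F, (KK m0 m1 m2 a b).trace = 2 * a := by
        intro a b
        simp [KK, Matrix.trace_fin_two]; ring
      rw [tr, tr] at e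
      have h2' : (2 : F) ≠ 0 := Ring.two_ne_zero h2
      have : (A.det * 2) * (d1 * X - d2 * X') = 0 := by linear_combination e
      exact sub_eq_zero.1 ((mul_eq_zero.1 this).resolve_left (mul_ne_zero hΔ h2'))
    -- the remaining part
    have hKK : ∀ a b : F, KK m0 m1 m2 a b = a • (1 : Matrix (Fin 2) (Fin 2) F) + b • !![m0, m1; m2, -m0] := by
      intro a b
      simp only [KK]
      ext i j
      fin_cases i <;> fin_cases j <;> simp <;> ring
    have h7 : (d1 * Y) • (!![m0, m1; m2, -m0] * C) = (d2 * Y') • (C * !![m0, m1; m2, -m0]) := by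
      rw [hKK, hKK] at h5
      simp only [Matrix.add_mul, Matrix.mul_add, Matrix.smul_mul, Matrix.mul_smul, Matrix.one_mul, Matrix.mul_one,
        smul_add, smul_smul] at h5
      rw [h6] at h5
      exact add_left_cancel h5
    have h8 : (d1 * Y) • (A * !![m0, m1; m2, -m0]) = (d2 * Y') • (!![m0, m1; m2, -m0] * A) := by
      have e : A * ((d1 * Y) • (!![m0, m1; m2, -m0] * C)) * A = A * ((d2 * Y') • (C * !![m0, m1; m2, -m0])) * A := by
        rw [h7]
      simp only [Matrix.smul_mul, Matrix.mul_smul] at e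
      have l : A * (!![m0, m1; m2, -m0] * C) * A = A.det • (A * !![m0, m1; m2, -m0]) := by
        rw [← Matrix.mul_assoc, Matrix.mul_assoc, hCA, Matrix.mul_smul, Matrix.mul_one]
      have r : A * (C * !![m0, m1; m2, -m0]) * A = A.det • (!![m0, m1; m2, -m0] * A) := by
        rw [← Matrix.mul_assoc, hAC, Matrix.smul_mul, Matrix.one_mul, Matrix.smul_mul]
      rw [l, r, smul_comm (d1 * Y), smul_comm (d2 * Y')] at e
      exact smul_right_injective _ hΔ e
    have hY0 : Y' = 0 := by
      by_contra hY0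
      by_cases hY1 : Y = 0
      · rw [hY1, mul_zero, zero_smul] at h8
        have h9 : (!![m0, m1; m2, -m0] * A).det ≠ 0 := by
          rw [Matrix.det_mul, det2]
          refine mul_ne_zero ?_ hΔ
          intro h
          apply hδ
          have : m0 ^ 2 + m1 * m2 = 0 := by linear_combination -h
          rw [this]
          exact IsSquare.zero
        rcases smul_eq_zero.1 h8.symm with h | h
        · exact mul_ne_zero hd2' hY0 h
        · rw [h] at h9
          exact h9 (by simp)
      · apply hne (d2 * Y' / (d1 * Y))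
        have hn : d1 * Y ≠ 0 := mul_ne_zero hd1' hY1
        rw [div_eq_inv_mul, ← smul_smul, ← h8, smul_smul, inv_mul_cancel₀ hn, one_smul]
    -- representatives
    cases o with
    | none =>
      cases o' with
      | none => rfl
      | some s' =>
        simp only [hY', hkp] at hY0
        exact absurd hY0 (by simp)
    | some s =>
      cases o' with
      | none =>
        simp only [hY', hkp] at hY0
        exact absurd hY0 (by simp)
      | some s' =>
        simp only [hY', hkp] at hY0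
        have : s = s' := by linear_combination hY0
        rw [this]
  -- all translations
  have hu : ∀ f : F, InH H !![1, f; 0, 1] := by
    intro f
    by_contra hf
    have hm : ∀ o, m o ≠ 0 := by
      intro o h
      apply (hborel o).det_ne
      rw [det2, h]; ring
    have hρ : ∀ μ : F, ∃ r : F, ∀ o, m o = μ → InH H !![1, r; 0, μ] := by
      intro μ
      by_cases h : ∃ o, m o = μ
      · obtain ⟨o, ho⟩ := h
        exact ⟨t o, fun _ _ => ho ▸ hborel o⟩
      · exact ⟨0, fun o ho => absurd ⟨o, ho⟩ h⟩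
    choose r hr using hρ
    have hV1 : ∀ o, InH H !![1, t o - r (m o); 0, 1] := fun o => hVdiff _ _ _ (hr (m o) o rfl) (hborel o)
    have hΨ : Function.Injective (fun o : Option F => m o * f + (t o - r (m o))) := by
      intro o o' h
      simp only at h
      by_cases hmm : m o = m o'
      · rw [hmm] at h
        exact hinj o o' (by linear_combination h) hmm
      · exfalso
        set μ := m o - m o' with hμ
        have hμ0 : μ ≠ 0 := sub_ne_zero.2 hmm
        have h1 : InH H !![1, μ * f; 0, 1] := by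
          refine (hVadd _ _ (hV1 o') (hVneg _ (hV1 o))).congr rfl ?_ rfl rfl
          rw [hμ]
          linear_combination -h
        have hμV : ∀ v, InH H !![1, v; 0, 1] → InH H !![1, μ * v; 0, 1] := by
          intro v hv
          refine (hVadd _ _ (hV _ _ _ (hborel o) hv) (hVneg _ (hV _ _ _ (hborel o') hv))).congr rfl ?_ rfl rfl
          rw [hμ]; ring
        have h3 : ∀ n : ℕ, InH H !![1, μ ^ (n + 1) * f; 0, 1] := by
          intro n
          induction n with
          | zero => refine h1.congr rfl ?_ rfl rfl; ring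
          | succ n ih => refine (hμV _ ih).congr rfl ?_ rfl rfl; ring
        have hq1 : 1 < Fintype.card F := Fintype.one_lt_card
        have h4 := h3 (Fintype.card F - 2)
        have h5 : Fintype.card F - 2 + 1 = Fintype.card F - 1 := by omega
        rw [h5, FiniteField.pow_card_sub_one_eq_one μ hμ0, one_mul] at h4
        exact hf h4
    have := Fintype.card_le_of_injective _ hΨ
    rw [Fintype.card_option] at this
    omega
  -- lower translations
  have hl : ∀ s : F, InH H !![1, 0; s, 1] := by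
    intro s
    have hk : InH H !![0, m1 / m2; 1, -(2 * m0 / m2)] := by
      refine (hK (-(m0 / m2)) (1 / m2) (fun h => div_ne_zero one_ne_zero hm2 h.2)).congr ?_ ?_ ?_ ?_
      · ring
      · ring
      · field_simp
      · ring
    have hb : m1 / m2 ≠ 0 := div_ne_zero hm1 hm2
    have h3 := (hk.mul ((hu (s * (m1 / m2))).mul hk.adj)).smul (neg_ne_zero.2 (inv_ne_zero hb))
    rw [adj2, mul2, mul2, smul2] at h3
    refine h3.congr ?_ ?_ ?_ ?_
    · field_simp; ring
    · field_simp; ring
    · field_simp; ring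
    · field_simp; ring
  refine gen_unip hu hl ?_
  -- a nonsquare determinant
  have hδ0 : m0 ^ 2 + m1 * m2 ≠ 0 := fun h => hδ (h ▸ IsSquare.zero)
  obtain ⟨a, b, hab⟩ := FiniteField.exists_root_sum_quadratic (R := F)
    (f := Polynomial.C 1 * Polynomial.X ^ 2 + Polynomial.C 0 * Polynomial.X + Polynomial.C (-(m0 ^ 2 + m1 * m2)))
    (g := Polynomial.C (-(m0 ^ 2 + m1 * m2)) * Polynomial.X ^ 2 + Polynomial.C 0 * Polynomial.X + Polynomial.C 0)
    (Polynomial.degree_quadratic one_ne_zero) (Polynomial.degree_quadratic (neg_ne_zero.2 hδ0))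
    (FiniteField.odd_card_of_char_ne_two h2)
  simp at hab
  have hdet : a ^ 2 - (m0 ^ 2 + m1 * m2) * b ^ 2 = m0 ^ 2 + m1 * m2 := by linear_combination hab
  refine ⟨KK m0 m1 m2 a b, hK a b ?_, ?_⟩
  · rintro ⟨h3, h4⟩
    rw [h3, h4] at hdet
    apply hδ0
    linear_combination -hdet
  · rw [KK_det, hdet]
    exact hδ

end Pool.Agent.SpreadPGL
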