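import Mathlib
import Pool.Agent.Lib_MP_9e452d.Nonsplit
import Pool.Agent.Lib_MP_9e452d.Core

/-!
# MP_9e452d_al: the elements `y` attached to a traceless matrix
-/

set_option autoImplicit false

namespace Pool.Agent.SpreadPGL

open Matrix MatrixGroups

variable {F : Type*} [Field F]

/-- the traceless part of a matrix -/
def tl (A : Matrix (Fin 2) (Fin 2) F) : Fin 3 → F := ![(A 0 0 - A 1 1) / 2, A 0 1, A 1 0]

theorem B_tl (h2 : (2 : F) ≠ 0) (A : Matrix (Fin 2) (Fin 2) F) (z : Fin 3 → F) :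
    B (tl A) z = (A 0 0 - A 1 1) * z 0 + A 0 1 * z 2 + A 1 0 * z 1 := by
  simp only [B, tl, Matrix.cons_val_zero, Matrix.cons_val_one, Matrix.cons_val]
  field_simp

theorem tl_ne (h2 : (2 : F) ≠ 0) (g : GL (Fin 2) F) (hg : ProjGenLinGroup.mk g ≠ 1) :
    tl (g : Matrix (Fin 2) (Fin 2) F) ≠ 0 := by
  intro h
  apply hg
  have e0 := congrFun h 0
  have e1 := congrFun h 1
  have e2 := congrFun h 2
  simp only [tl, Matrix.cons_val_zero, Matrix.cons_val_one, Matrix.cons_val, Pi.zero_apply] at e0 e1 e2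
  have e3 : (g : Matrix (Fin 2) (Fin 2) F) 0 0 = (g : Matrix (Fin 2) (Fin 2) F) 1 1 := by
    rcases div_eq_zero_iff.1 e0 with h | h
    · exact sub_eq_zero.1 h
    · exact absurd h h2
  have hd := g.det_ne_zero
  rw [Matrix.det_fin_two, e1, e2, mul_zero, sub_zero, e3] at hd
  have hne : (g : Matrix (Fin 2) (Fin 2) F) 1 1 ≠ 0 := left_ne_zero_of_mul hd
  have : g = GeneralLinearGroup.scalar (Fin 2) (Units.mk0 _ hne) := by
    apply Units.ext
    ext i j
    fin_cases i <;> fin_cases j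
    · simp [Matrix.scalar_apply, e3]
    · simp [Matrix.scalar_apply, e1]
    · simp [Matrix.scalar_apply, e2]
    · simp [Matrix.scalar_apply]
  rw [this, ProjGenLinGroup.mk_scalar]

/-- a matrix which commutes up to a scalar with a traceless matrix -/
theorem tl_of_comm (h2 : (2 : F) ≠ 0) (z : Fin 3 → F) (hz : ¬ IsSquare (D z)) (A : Matrix (Fin 2) (Fin 2) F)
    (hA : A.det ≠ 0) (ht : tl A ≠ 0) (l : F)
    (h : A * !![z 0, z 1; z 2, -z 0] = l • (!![z 0, z 1; z 2, -z 0] * A)) :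
    B (tl A) z = 0 ∨ ∃ c : F, z = c • tl A := by
  have hD0 : D z ≠ 0 := fun h => hz (h ▸ IsSquare.zero)
  have hdet : l ^ 2 = 1 := by
    have := congrArg Matrix.det h
    rw [Matrix.det_mul, Matrix.det_smul, Matrix.det_mul, Fintype.card_fin, det2] at this
    have e : (A.det * D z) * (l ^ 2 - 1) = 0 := by
      unfold D
      linear_combination this
    have := (mul_eq_zero.1 e).resolve_left (mul_ne_zero hA hD0)
    linear_combination this
  have hl : l = 1 ∨ l = -1 := by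
    have : (l - 1) * (l + 1) = 0 := by linear_combination hdet
    rcases mul_eq_zero.1 this with h | h
    · exact Or.inl (by linear_combination h)
    · exact Or.inr (by linear_combination h)
  rcases hl with hl | hl
  · right
    rw [hl, one_smul, eta2 A, mul2, mul2] at h
    have h00 := congrFun (congrFun h 0) 0
    have h01 := congrFun (congrFun h 0) 1
    have h10 := congrFun (congrFun h 1) 0
    simp at h00 h01 h10
    have hz2 : z 2 ≠ 0 := by
      intro h0
      apply hz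
      unfold D
      rw [h0, mul_zero, add_zero]
      exact IsSquare.sq _
    have ha2 : A 1 0 ≠ 0 := by
      intro ha
      apply ht
      have a1 : A 0 1 = 0 := by
        have : z 2 * A 0 1 = 0 := by rw [ha] at h00; linear_combination h00
        exact (mul_eq_zero.1 this).resolve_left hz2
      have a0 : A 0 0 - A 1 1 = 0 := by
        have : z 2 * (A 0 0 - A 1 1) = 0 := by rw [ha] at h10; linear_combination -h10
        exact (mul_eq_zero.1 this).resolve_left hz2
      funext i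
      fin_cases i
      · simp [tl, a0]
      · simp [tl, a1]
      · simp [tl, ha]
    refine ⟨z 2 / A 1 0, ?_⟩
    funext i
    fin_cases i
    · simp [tl]; field_simp; linear_combination h10
    · simp [tl]; field_simp; linear_combination -h00
    · simp [tl]; field_simp
  · left
    rw [hl] at h
    have h3 : (!![z 0, z 1; z 2, -z 0] * A).trace = 0 := by
      have : 2 * (!![z 0, z 1; z 2, -z 0] * A).trace = 0 := by
        have h4 := congrArg Matrix.trace h
        rw [Matrix.trace_smul, Matrix.trace_mul_comm A, smul_eq_mul] at h4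
        linear_combination h4
      exact (mul_eq_zero.1 this).resolve_left h2
    rw [B_tl h2]
    rw [eta2 A, mul2, Matrix.trace_fin_two] at h3
    simp at h3
    linear_combination h3

/-- elements of order `q + 1` -/
theorem exists_y_nonsplit [Fintype F] [DecidableEq F] (h2 : ringChar F ≠ 2) (z : Fin 3 → F) (hz : ¬ IsSquare (D z)) :
    ∃ y : Matrix.ProjGenLinGroup (Fin 2) F, ∀ g : GL (Fin 2) F, ProjGenLinGroup.mk g ≠ 1 →
      Subgroup.closure {ProjGenLinGroup.mk g, y} ≠ ⊤ →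
      B (tl (g : Matrix (Fin 2) (Fin 2) F)) z = 0 ∨ ∃ c : F, z = c • tl (g : Matrix (Fin 2) (Fin 2) F) := by
  have h2' : (2 : F) ≠ 0 := Ring.two_ne_zero h2
  have : Fact (∀ r : F, r ^ 2 ≠ D z + 0 * r) := ⟨fun r h => hz ⟨r, by rw [← sq, h]; ring⟩⟩
  have : Finite (QuadraticAlgebra F (D z) 0) := Finite.of_equiv _ (QuadraticAlgebra.equivProd (D z) 0).symm
  set M : Matrix (Fin 2) (Fin 2) F := !![z 0, z 1; z 2, -z 0] with hM
  have hMM : M * M = D z • (1 : Matrix (Fin 2) (Fin 2) F) + (0 : F) • M := by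
    rw [hM, mul2, zero_smul, add_zero]
    ext i j
    fin_cases i <;> fin_cases j <;> simp [D] <;> ring
  set φ : QuadraticAlgebra F (D z) 0 →ₐ[F] Matrix (Fin 2) (Fin 2) F := QuadraticAlgebra.lift ⟨M, hMM⟩ with hφ
  have hφ' : ∀ w, φ w = KK (z 0) (z 1) (z 2) w.re w.im := by
    intro w
    rw [hφ, QuadraticAlgebra.lift_apply_apply]
    simp only [KK, hM]
    ext i j
    fin_cases i <;> fin_cases j <;> simp <;> ring
  set ψ : (QuadraticAlgebra F (D z) 0)ˣ →* GL (Fin 2) F := Units.map φ.toRingHom.toMonoidHom with hψ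
  obtain ⟨ζ, hζ⟩ := IsCyclic.exists_generator (α := (QuadraticAlgebra F (D z) 0)ˣ)
  refine ⟨ProjGenLinGroup.mk (ψ ζ), fun g hg hcl => ?_⟩
  by_contra hcon
  apply hcl
  set H := Subgroup.closure {ProjGenLinGroup.mk g, ProjGenLinGroup.mk (ψ ζ)} with hH
  have hgH : InH H (g : Matrix (Fin 2) (Fin 2) F) := ⟨g, rfl, Subgroup.subset_closure (by simp)⟩
  have hyH : ProjGenLinGroup.mk (ψ ζ) ∈ H := Subgroup.subset_closure (by simp)
  have hK : ∀ a b : F, ¬ (a = 0 ∧ b = 0) → InH H (KK (z 0) (z 1) (z 2) a b) := by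
    intro a b hab
    have hw : (⟨a, b⟩ : QuadraticAlgebra F (D z) 0) ≠ 0 := by
      intro h
      apply hab
      exact ⟨congrArg QuadraticAlgebra.re h, congrArg QuadraticAlgebra.im h⟩
    obtain ⟨n, hn⟩ := Subgroup.mem_zpowers_iff.1 (hζ (Units.mk0 _ hw))
    refine ⟨ψ (Units.mk0 _ hw), ?_, ?_⟩
    · exact hφ' ⟨a, b⟩
    · rw [← hn, map_zpow, map_zpow]
      exact H.zpow_mem hyH n
  refine gen_nonsplit h2 (m0 := z 0) (m1 := z 1) (m2 := z 2) hz hK hgH (fun l h => hcon ?_)
  exact tl_of_comm h2' z hz _ g.det_ne_zero (tl_ne h2' g hg) l h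

/-- eigenvectors of a traceless matrix with square `D` -/
theorem exists_eig (h2 : (2 : F) ≠ 0) (z : Fin 3 → F) (hz0 : D z ≠ 0) (hz : IsSquare (D z)) :
    ∃ v0 v1 w0 w1 s : F, v0 * w1 - v1 * w0 ≠ 0 ∧ s ≠ 0 ∧ z 0 = s * (v0 * w1 + v1 * w0) ∧
      z 1 = s * (-2 * v0 * w0) ∧ z 2 = s * (2 * v1 * w1) := by
  obtain ⟨r, hr⟩ := hz
  have hr0 : r ≠ 0 := by
    intro h
    rw [h, mul_zero] at hr
    exact hz0 hr
  unfold D at hr
  by_cases h1 : z 1 = 0
  · have h0 : z 0 ≠ 0 := by
      intro h0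
      apply hz0
      unfold D
      rw [h0, h1]; ring
    refine ⟨2 * z 0, z 2, 0, 1, 1 / 2, ?_, by simpa using h2, ?_, ?_, ?_⟩
    · simpa using ⟨h2, h0⟩
    · field_simp; ring
    · rw [h1]; ring
    · field_simp
  · refine ⟨z 1, r - z 0, z 1, -r - z 0, -1 / (2 * z 1), ?_, ?_, ?_, ?_, ?_⟩
    · have : z 1 * (-r - z 0) - (r - z 0) * z 1 = -(2 * (r * z 1)) := by ring
      rw [this]
      exact neg_ne_zero.2 (mul_ne_zero h2 (mul_ne_zero hr0 h1))
    · exact div_ne_zero (neg_ne_zero.2 one_ne_zero) (mul_ne_zero h2 h1)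
    · field_simp; ring
    · field_simp
    · field_simp; linear_combination hr

/-- elements of order `q - 1` -/
theorem exists_y_split [Fintype F] [DecidableEq F] (h2 : ringChar F ≠ 2) (hq : 7 ≤ Fintype.card F) (z : Fin 3 → F)
    (hz0 : D z ≠ 0) (hz : IsSquare (D z)) :
    ∃ y : Matrix.ProjGenLinGroup (Fin 2) F, ∀ g : GL (Fin 2) F,
      Subgroup.closure {ProjGenLinGroup.mk g, y} ≠ ⊤ →
      B (tl (g : Matrix (Fin 2) (Fin 2) F)) z = 0 ∨
        ∃ N, N ≠ 0 ∧ D N = 0 ∧ B (tl (g : Matrix (Fin 2) (Fin 2) F)) N = 0 ∧ B N z = 0 := by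
  have h2' : (2 : F) ≠ 0 := Ring.two_ne_zero h2
  obtain ⟨v0, v1, w0, w1, s, hΔ, hs, e0, e1, e2⟩ := exists_eig h2' z hz0 hz
  set P : GL (Fin 2) F := GeneralLinearGroup.mkOfDetNeZero !![v0, w0; v1, w1] (by
    rw [det2]; intro h; apply hΔ; linear_combination h) with hP
  have hPm : (P : Matrix (Fin 2) (Fin 2) F) = !![v0, w0; v1, w1] := rfl
  obtain ⟨ζ, hζ⟩ := IsCyclic.exists_generator (α := Fˣ)
  -- diagonal matrices
  set dg : Fˣ →* GL (Fin 2) F :=
    { toFun := fun u => GeneralLinearGroup.mkOfDetNeZero !![(u : F), 0; 0, 1] (by rw [det2]; simp)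
      map_one' := by
        apply Units.ext
        ext i j
        fin_cases i <;> fin_cases j <;> simp [GeneralLinearGroup.mkOfDetNeZero]
      map_mul' := fun u u' => by
        apply Units.ext
        show !![((u * u' : Fˣ) : F), 0; 0, 1] = !![(u : F), 0; 0, 1] * !![(u' : F), 0; 0, 1]
        rw [mul2]
        simp } with hdg
  have hdgm : ∀ u : Fˣ, (dg u : Matrix (Fin 2) (Fin 2) F) = !![(u : F), 0; 0, 1] := fun u => rfl
  set p := ProjGenLinGroup.mk P with hp
  refine ⟨p * ProjGenLinGroup.mk (dg ζ) * p⁻¹, fun g hcl => ?_⟩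
  by_contra hcon
  apply hcl
  set H := Subgroup.closure {ProjGenLinGroup.mk g, p * ProjGenLinGroup.mk (dg ζ) * p⁻¹} with hH
  have hgH : ProjGenLinGroup.mk g ∈ H := Subgroup.subset_closure (by simp)
  have hyH : p * ProjGenLinGroup.mk (dg ζ) * p⁻¹ ∈ H := Subgroup.subset_closure (by simp)
  set H' := H.comap (MulAut.conj p).toMonoidHom with hH'
  have hmem : ∀ x, x ∈ H' ↔ p * x * p⁻¹ ∈ H := fun x => Iff.rfl
  have htop : H' = ⊤ → H = ⊤ := by
    intro h
    rw [eq_top_iff]
    intro x _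
    have : p⁻¹ * x * p ∈ H' := by rw [h]; trivial
    rw [hmem] at this
    have e : p * (p⁻¹ * x * p) * p⁻¹ = x := by group
    rwa [e] at this
  apply htop
  -- the torus
  have ht : ∀ β : F, β ≠ 0 → InH H' !![β, 0; 0, 1] := by
    intro β hβ
    obtain ⟨n, hn⟩ := Subgroup.mem_zpowers_iff.1 (hζ (Units.mk0 β hβ))
    refine ⟨dg (Units.mk0 β hβ), rfl, ?_⟩
    rw [hmem, ← hn, map_zpow, map_zpow]
    have : p * ProjGenLinGroup.mk (dg ζ) ^ n * p⁻¹ = (p * ProjGenLinGroup.mk (dg ζ) * p⁻¹) ^ n := by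
      rw [conj_zpow]
    rw [this]
    exact H.zpow_mem hyH n
  -- the element `g` in the basis `v, w`
  set a := (g : Matrix (Fin 2) (Fin 2) F) 0 0 with ha
  set b := (g : Matrix (Fin 2) (Fin 2) F) 0 1 with hb
  set c := (g : Matrix (Fin 2) (Fin 2) F) 1 0 with hc
  set d := (g : Matrix (Fin 2) (Fin 2) F) 1 1 with hd
  have hgm : (g : Matrix (Fin 2) (Fin 2) F) = !![a, b; c, d] := eta2 _
  have hg' : InH H' !![w1 * (a * v0 + b * v1) - w0 * (c * v0 + d * v1), w1 * (a * w0 + b * w1) - w0 * (c * w0 + d * w1);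
      -v1 * (a * v0 + b * v1) + v0 * (c * v0 + d * v1), -v1 * (a * w0 + b * w1) + v0 * (c * w0 + d * w1)] := by
    have h3 : InH H' ((P⁻¹ * g * P : GL (Fin 2) F) : Matrix (Fin 2) (Fin 2) F) := by
      refine ⟨P⁻¹ * g * P, rfl, ?_⟩
      rw [hmem, map_mul, map_mul, map_inv, ← hp]
      have : p * (p⁻¹ * ProjGenLinGroup.mk g * p) * p⁻¹ = ProjGenLinGroup.mk g := by group
      rw [this]
      exact hgH
    have hPd : (P : Matrix (Fin 2) (Fin 2) F).det ≠ 0 := P.det_ne_zero
    have h4 := h3.smul hPd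
    have h5 : (P : Matrix (Fin 2) (Fin 2) F).det • ((P⁻¹ * g * P : GL (Fin 2) F) : Matrix (Fin 2) (Fin 2) F) =
        (P : Matrix (Fin 2) (Fin 2) F).adjugate * ((g : Matrix (Fin 2) (Fin 2) F) * (P : Matrix (Fin 2) (Fin 2) F)) := by
      rw [Units.val_mul, Units.val_mul, Matrix.coe_units_inv, Matrix.inv_def, Matrix.smul_mul, Matrix.smul_mul,
        smul_smul, Ring.mul_inverse_cancel _ (isUnit_iff_ne_zero.2 hPd), one_smul, Matrix.mul_assoc]
    rw [h5, hgm, hPm, adj2, mul2, mul2] at h4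
    refine h4.congr ?_ ?_ ?_ ?_ <;> ring
  have hvN : ∀ x0 x1 : F, ¬ (x0 = 0 ∧ x1 = 0) → -x1 * (a * x0 + b * x1) + x0 * (c * x0 + d * x1) = 0 →
      2 * (x0 * x1) * z 0 - x0 ^ 2 * z 2 + x1 ^ 2 * z 1 = 0 → False := by
    intro x0 x1 hx h3 h4
    apply hcon
    right
    refine ⟨![x0 * x1, -x0 ^ 2, x1 ^ 2], ?_, ?_, ?_, ?_⟩
    · intro h
      apply hx
      have f1 := congrFun h 1
      have f2 := congrFun h 2
      simp at f1 f2
      exact ⟨f1, f2⟩
    · simp [D]; ring
    · rw [B_tl h2']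
      simp only [Matrix.cons_val_zero, Matrix.cons_val_one, Matrix.cons_val]
      linear_combination -h3
    · simp only [B, Matrix.cons_val_zero, Matrix.cons_val_one, Matrix.cons_val]
      linear_combination h4
  refine gen_split h2 hq hg' ht ?_ ?_ ?_
  · intro h
    refine hvN w0 w1 ?_ (by linear_combination -h) ?_
    · rintro ⟨h3, h4⟩
      apply hΔ
      rw [h3, h4]; ring
    · rw [e0, e1, e2]; ring
  · intro h
    refine hvN v0 v1 ?_ (by linear_combination h) ?_
    · rintro ⟨h3, h4⟩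
      apply hΔ
      rw [h3, h4]; ring
    · rw [e0, e1, e2]; ring
  · rintro ⟨h3, h4⟩
    apply hcon
    left
    rw [B_tl h2', ← ha, ← hb, ← hc, ← hd, e0, e1, e2]
    linear_combination s * (h3 - h4)

end Pool.Agent.SpreadPGL
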