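import Mathlib
import Pool.Agent.Lib_MP_9e452d.Gen

/-!
# MP_9e452d_al: `q - 1` involutions without a common mate
-/

set_option autoImplicit false

namespace Pool.Agent.SpreadPGL

/-- squares in a group generated by an involution and an element inverted by it -/
theorem dihedral_sq {G : Type*} [Group G] (x y : G) (hx : x * x = 1) (hxy : x * y * (x * y) = 1)
    (htop : Subgroup.closure {x, y} = ⊤) (g : G) : ∃ n : ℤ, g * g = y ^ n := by
  have hx' : x⁻¹ = x := inv_eq_of_mul_eq_one_left hx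
  have hxyx : x * y * x⁻¹ = y⁻¹ := by
    rw [hx']
    have : x * y * x * y = 1 := by rw [← hxy]; group
    exact eq_inv_of_mul_eq_one_left this
  have hpow : ∀ n : ℤ, x * y ^ n * x = y ^ (-n) := by
    intro n
    have h1 : x * y ^ n * x⁻¹ = (x * y * x⁻¹) ^ n := by rw [conj_zpow]
    rw [hxyx, inv_zpow, ← zpow_neg] at h1
    rw [← h1, hx']
  have key : ∀ g : G, ∃ n : ℤ, g = y ^ n ∨ g = x * y ^ n := by
    intro g
    have hg : g ∈ Subgroup.closure {x, y} := by rw [htop]; trivial
    induction hg using Subgroup.closure_induction with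
    | mem z hz =>
      rcases hz with h | h
      · exact ⟨0, Or.inr (by rw [h]; simp)⟩
      · exact ⟨1, Or.inl (by rw [Set.mem_singleton_iff.1 h]; simp)⟩
    | one => exact ⟨0, Or.inl (by simp)⟩
    | mul a b _ _ iha ihb =>
      obtain ⟨m, hm⟩ := iha
      obtain ⟨n, hn⟩ := ihb
      rcases hm with hm | hm <;> rcases hn with hn | hn
      · exact ⟨m + n, Or.inl (by rw [hm, hn, zpow_add])⟩
      · refine ⟨-m + n, Or.inr ?_⟩
        rw [hm, hn, zpow_add, ← hpow m]
        calc y ^ m * (x * y ^ n) = 1 * y ^ m * x * y ^ n := by group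
          _ = x * x * y ^ m * x * y ^ n := by rw [hx]
          _ = x * (x * y ^ m * x * y ^ n) := by group
      · exact ⟨m + n, Or.inr (by rw [hm, hn, zpow_add, mul_assoc])⟩
      · refine ⟨-m + n, Or.inl ?_⟩
        rw [hm, hn, zpow_add, ← hpow m]
        group
    | inv a _ iha =>
      obtain ⟨m, hm⟩ := iha
      rcases hm with hm | hm
      · exact ⟨-m, Or.inl (by rw [hm, zpow_neg])⟩
      · refine ⟨m, Or.inr ?_⟩
        rw [hm, mul_inv_rev, hx', ← zpow_neg, ← hpow m]
        calc x * y ^ m * x * x = x * y ^ m * (x * x) := by group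
          _ = x * y ^ m := by rw [hx, mul_one]
  obtain ⟨n, hn | hn⟩ := key g
  · exact ⟨n + n, by rw [hn, zpow_add]⟩
  · refine ⟨0, ?_⟩
    have : g * g = (x * y ^ n * x) * y ^ n := by rw [hn]; group
    rw [this, hpow, ← zpow_add]
    simp

open Matrix MatrixGroups

variable {F : Type*} [Field F]

/-- the involution `z ↦ a / z` -/
noncomputable def tt (a : Fˣ) : GL (Fin 2) F := GeneralLinearGroup.mkOfDetNeZero !![0, (a : F); 1, 0] (by
  rw [det2]; simp)

theorem tt_val (a : Fˣ) : (tt a : Matrix (Fin 2) (Fin 2) F) = !![0, (a : F); 1, 0] := rfl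

/-- scalar matrices -/
theorem mk_eq_one_of (g : GL (Fin 2) F) (c : F) (h : (g : Matrix (Fin 2) (Fin 2) F) = c • (1 : Matrix (Fin 2) (Fin 2) F)) :
    ProjGenLinGroup.mk g = 1 := by
  have hd := g.det_ne_zero
  have hc : c ≠ 0 := by
    intro hc
    rw [h, hc, zero_smul] at hd
    exact hd (by simp)
  have : g = GeneralLinearGroup.scalar (Fin 2) (Units.mk0 c hc) := by
    apply Units.ext
    rw [h]
    ext i j
    fin_cases i <;> fin_cases j <;> simp [Matrix.scalar_apply]
  rw [this, ProjGenLinGroup.mk_scalar]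

theorem eq_smul_of_mk_eq {g g' : GL (Fin 2) F} (h : ProjGenLinGroup.mk g = ProjGenLinGroup.mk g') :
    ∃ c : F, c ≠ 0 ∧ (g' : Matrix (Fin 2) (Fin 2) F) = c • (g : Matrix (Fin 2) (Fin 2) F) := by
  obtain ⟨u, hu⟩ := ProjGenLinGroup.mk_eq_mk_iff.1 h
  refine ⟨u, u.ne_zero, ?_⟩
  rw [← hu]
  ext i j
  simp [Matrix.mul_apply, Matrix.scalar_apply, Matrix.diagonal, mul_comm]

theorem tt_ne_one (a : Fˣ) : ProjGenLinGroup.mk (tt a) ≠ 1 := by
  intro h
  rw [← map_one (ProjGenLinGroup.mk (n := Fin 2) (R := F))] at h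
  obtain ⟨c, hc, he⟩ := eq_smul_of_mk_eq h.symm
  rw [tt_val] at he
  have := congrFun (congrFun he 1) 0
  simp at this

/-- upper and lower unipotents -/
noncomputable def up (t : F) : GL (Fin 2) F := GeneralLinearGroup.mkOfDetNeZero !![1, t; 0, 1] (by rw [det2]; simp)

noncomputable def lo (t : F) : GL (Fin 2) F := GeneralLinearGroup.mkOfDetNeZero !![1, 0; t, 1] (by rw [det2]; simp)

/-- a subgroup generated by an involution inverting `y` is proper -/
theorem ne_top_of_dihedral (h2 : (2 : F) ≠ 0) (x y : Matrix.ProjGenLinGroup (Fin 2) F) (hx : x * x = 1)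
    (hxy : x * y * (x * y) = 1) : Subgroup.closure {x, y} ≠ ⊤ := by
  intro htop
  have hsq := dihedral_sq x y hx hxy htop
  obtain ⟨m, hm⟩ := hsq (ProjGenLinGroup.mk (up 1))
  obtain ⟨n, hn⟩ := hsq (ProjGenLinGroup.mk (lo 1))
  have hcomm : ProjGenLinGroup.mk (up (1 : F)) * ProjGenLinGroup.mk (up 1) * (ProjGenLinGroup.mk (lo 1) * ProjGenLinGroup.mk (lo 1)) =
      ProjGenLinGroup.mk (lo 1) * ProjGenLinGroup.mk (lo 1) * (ProjGenLinGroup.mk (up 1) * ProjGenLinGroup.mk (up 1)) := by
    rw [hm, hn, ← _root_.zpow_add, ← _root_.zpow_add, add_comm]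
  rw [← map_mul, ← map_mul, ← map_mul, ← map_mul] at hcomm
  obtain ⟨c, hc, he⟩ := eq_smul_of_mk_eq hcomm
  have e1 : ((up (1 : F) * up 1 * (lo 1 * lo 1) : GL (Fin 2) F) : Matrix (Fin 2) (Fin 2) F) = !![5, 2; 2, 1] := by
    show (!![1, (1 : F); 0, 1] * !![1, 1; 0, 1]) * (!![1, 0; 1, 1] * !![1, 0; 1, 1]) = _
    rw [mul2, mul2, mul2]
    ext i j
    fin_cases i <;> fin_cases j <;> simp <;> ring
  have e2 : ((lo (1 : F) * lo 1 * (up 1 * up 1) : GL (Fin 2) F) : Matrix (Fin 2) (Fin 2) F) = !![1, 2; 2, 5] := by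
    show (!![1, (0 : F); 1, 1] * !![1, 0; 1, 1]) * (!![1, 1; 0, 1] * !![1, 1; 0, 1]) = _
    rw [mul2, mul2, mul2]
    ext i j
    fin_cases i <;> fin_cases j <;> simp <;> ring
  rw [e1, e2] at he
  have f1 := congrFun (congrFun he 0) 1
  have f2 := congrFun (congrFun he 0) 0
  simp at f1 f2
  have hc1 : c = 1 := by
    have : 2 * (c - 1) = 0 := by linear_combination -f1
    have := (mul_eq_zero.1 this).resolve_left h2
    linear_combination this
  rw [hc1] at f2
  have : (2 : F) * 2 = 0 := by linear_combination -f2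
  rcases mul_eq_zero.1 this with h | h <;> exact h2 h

/-- a subgroup fixing a point is proper -/
theorem ne_top_of_fix (x y : GL (Fin 2) F) (c : F)
    (hx : ∃ l : F, (x : Matrix (Fin 2) (Fin 2) F) *ᵥ ![c, 1] = l • ![c, 1])
    (hy : ∃ l : F, (y : Matrix (Fin 2) (Fin 2) F) *ᵥ ![c, 1] = l • ![c, 1]) :
    Subgroup.closure {ProjGenLinGroup.mk x, ProjGenLinGroup.mk y} ≠ ⊤ := by
  intro htop
  have key : ∀ g : GL (Fin 2) F, ∃ l : F, (g : Matrix (Fin 2) (Fin 2) F) *ᵥ ![c, 1] = l • ![c, 1] := by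
    -- the stabiliser as a subgroup
    set S : Subgroup (GL (Fin 2) F) :=
      { carrier := {g | ∃ l : F, (g : Matrix (Fin 2) (Fin 2) F) *ᵥ ![c, 1] = l • ![c, 1]}
        one_mem' := ⟨1, by simp⟩
        mul_mem' := by
          rintro a b ⟨l, hl⟩ ⟨m, hm⟩
          refine ⟨m * l, ?_⟩
          rw [Units.val_mul, ← Matrix.mulVec_mulVec, hm, Matrix.mulVec_smul, hl, smul_smul]
        inv_mem' := by
          rintro a ⟨l, hl⟩
          have hl0 : l ≠ 0 := by
            intro h0
            rw [h0, zero_smul] at hl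
            have : ((a⁻¹ : GL (Fin 2) F) : Matrix (Fin 2) (Fin 2) F) *ᵥ ((a : Matrix (Fin 2) (Fin 2) F) *ᵥ ![c, 1]) = ![c, 1] := by
              rw [Matrix.mulVec_mulVec, ← Units.val_mul, inv_mul_cancel, Units.val_one, Matrix.one_mulVec]
            rw [hl, Matrix.mulVec_zero] at this
            have := congrFun this 1
            simp at this
          refine ⟨l⁻¹, ?_⟩
          have : ((a⁻¹ : GL (Fin 2) F) : Matrix (Fin 2) (Fin 2) F) *ᵥ ((a : Matrix (Fin 2) (Fin 2) F) *ᵥ ![c, 1]) = ![c, 1] := by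
            rw [Matrix.mulVec_mulVec, ← Units.val_mul, inv_mul_cancel, Units.val_one, Matrix.one_mulVec]
          rw [hl, Matrix.mulVec_smul] at this
          rw [← this, smul_smul, inv_mul_cancel₀ hl0, one_smul, this] } with hS
    have hle : Subgroup.closure {ProjGenLinGroup.mk x, ProjGenLinGroup.mk y} ≤ S.map ProjGenLinGroup.mk := by
      rw [Subgroup.closure_le]
      rintro z (h | h)
      · exact ⟨x, hx, h.symm⟩
      · exact ⟨y, hy, (Set.mem_singleton_iff.1 h).symm⟩
    rw [htop] at hle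
    intro g
    obtain ⟨g', hg', he⟩ := hle (Subgroup.mem_top (ProjGenLinGroup.mk g))
    obtain ⟨r, hr, h⟩ := eq_smul_of_mk_eq he
    obtain ⟨l, hl⟩ := hg'
    refine ⟨r * l, ?_⟩
    rw [h, Matrix.smul_mulVec, hl, smul_smul]
  obtain ⟨l, hl⟩ := key (up 1)
  have h0 := congrFun hl 0
  have h1 := congrFun hl 1
  have hv : (up (1 : F) : Matrix (Fin 2) (Fin 2) F) = !![1, 1; 0, 1] := rfl
  rw [hv] at h0 h1
  simp [Matrix.mulVec, dotProduct, Fin.sum_univ_two] at h0 h1
  rw [← h1] at h0
  apply one_ne_zero (α := F)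
  linear_combination h0

/-- a subgroup generated by elements of square determinant is proper -/
theorem ne_top_of_det [Fintype F] (h2 : ringChar F ≠ 2) (x y : GL (Fin 2) F)
    (hx : IsSquare (x : Matrix (Fin 2) (Fin 2) F).det) (hy : IsSquare (y : Matrix (Fin 2) (Fin 2) F).det) :
    Subgroup.closure {ProjGenLinGroup.mk x, ProjGenLinGroup.mk y} ≠ ⊤ := by
  intro htop
  have key : ∀ g : GL (Fin 2) F, IsSquare (g : Matrix (Fin 2) (Fin 2) F).det := by
    set S : Subgroup (GL (Fin 2) F) :=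
      { carrier := {g | IsSquare (g : Matrix (Fin 2) (Fin 2) F).det}
        one_mem' := by
          show IsSquare ((1 : GL (Fin 2) F) : Matrix (Fin 2) (Fin 2) F).det
          rw [Units.val_one, Matrix.det_one]
          exact IsSquare.one
        mul_mem' := by
          intro a b ha hb
          show IsSquare ((a * b : GL (Fin 2) F) : Matrix (Fin 2) (Fin 2) F).det
          rw [Units.val_mul, Matrix.det_mul]
          exact IsSquare.mul ha hb
        inv_mem' := by
          intro a ha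
          show IsSquare ((a⁻¹ : GL (Fin 2) F) : Matrix (Fin 2) (Fin 2) F).det
          rw [Matrix.coe_units_inv, Matrix.det_nonsing_inv, Ring.inverse_eq_inv']
          exact IsSquare.inv ha } with hS
    have hle : Subgroup.closure {ProjGenLinGroup.mk x, ProjGenLinGroup.mk y} ≤ S.map ProjGenLinGroup.mk := by
      rw [Subgroup.closure_le]
      rintro z (h | h)
      · exact ⟨x, hx, h.symm⟩
      · exact ⟨y, hy, (Set.mem_singleton_iff.1 h).symm⟩
    rw [htop] at hle
    intro g
    obtain ⟨g', hg', he⟩ := hle (Subgroup.mem_top (ProjGenLinGroup.mk g))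
    obtain ⟨r, hr, h⟩ := eq_smul_of_mk_eq he
    rw [h, Matrix.det_smul, Fintype.card_fin]
    exact (IsSquare.sq r).mul hg'
  obtain ⟨β, hβ⟩ := FiniteField.exists_nonsquare h2
  have hβ0 : β ≠ 0 := fun h => hβ (h ▸ IsSquare.zero)
  apply hβ
  have := key (GeneralLinearGroup.mkOfDetNeZero !![β, 0; 0, 1] (by rw [det2]; simpa using hβ0))
  have hv : ((GeneralLinearGroup.mkOfDetNeZero !![β, 0; 0, 1] (by rw [det2]; simpa using hβ0) : GL (Fin 2) F) :
    Matrix (Fin 2) (Fin 2) F) = !![β, 0; 0, 1] := rfl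
  rw [hv, det2] at this
  simpa using this

/-- no element generates the group with each of the involutions `z ↦ a / z` -/
theorem upper [Fintype F] (h2 : ringChar F ≠ 2) (y : Matrix.ProjGenLinGroup (Fin 2) F) :
    ∃ a : Fˣ, Subgroup.closure {ProjGenLinGroup.mk (tt a), y} ≠ ⊤ := by
  have h2' : (2 : F) ≠ 0 := Ring.two_ne_zero h2
  obtain ⟨h, rfl⟩ := ProjGenLinGroup.mk_surjective y
  set α := (h : Matrix (Fin 2) (Fin 2) F) 0 0 with hα
  set β := (h : Matrix (Fin 2) (Fin 2) F) 0 1 with hβ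
  set γ := (h : Matrix (Fin 2) (Fin 2) F) 1 0 with hγ
  set δ := (h : Matrix (Fin 2) (Fin 2) F) 1 1 with hδ
  have hm : (h : Matrix (Fin 2) (Fin 2) F) = !![α, β; γ, δ] := eta2 _
  have hdet := h.det_ne_zero
  rw [hm, det2] at hdet
  have dih : ∀ a : Fˣ, (a : F) * γ + β = 0 → Subgroup.closure {ProjGenLinGroup.mk (tt a), ProjGenLinGroup.mk h} ≠ ⊤ := by
    intro a ha
    apply ne_top_of_dihedral h2'
    · rw [← map_mul]
      refine mk_eq_one_of _ (a : F) ?_
      rw [Units.val_mul, tt_val, mul2]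
      ext i j
      fin_cases i <;> fin_cases j <;> simp
    · rw [← map_mul, ← map_mul]
      refine mk_eq_one_of _ ((a : F) * (α * δ - β * γ)) ?_
      rw [Units.val_mul, Units.val_mul, tt_val, hm, mul2, mul2]
      have hb : β = -((a : F) * γ) := by linear_combination ha
      rw [hb]
      ext i j
      fin_cases i <;> fin_cases j <;> simp <;> ring
  have hfix : ∀ c : F, c ≠ 0 → (∃ l : F, (h : Matrix (Fin 2) (Fin 2) F) *ᵥ ![c, 1] = l • ![c, 1]) →
      ∃ a : Fˣ, Subgroup.closure {ProjGenLinGroup.mk (tt a), ProjGenLinGroup.mk h} ≠ ⊤ := by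
    intro c hc hh
    refine ⟨Units.mk0 (c ^ 2) (pow_ne_zero 2 hc), ne_top_of_fix _ _ c ⟨c, ?_⟩ hh⟩
    rw [tt_val]
    ext i
    fin_cases i
    · simp [Matrix.mulVec, dotProduct, Fin.sum_univ_two]; ring
    · simp [Matrix.mulVec, dotProduct, Fin.sum_univ_two]
  have hsq : IsSquare (h : Matrix (Fin 2) (Fin 2) F).det →
      ∃ a : Fˣ, Subgroup.closure {ProjGenLinGroup.mk (tt a), ProjGenLinGroup.mk h} ≠ ⊤ := by
    intro hh
    refine ⟨-1, ne_top_of_det h2 _ _ ?_ hh⟩
    rw [tt_val, det2]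
    simp
  by_cases hγ0 : γ = 0
  · by_cases hβ0 : β = 0
    · exact ⟨1, dih 1 (by rw [hγ0, hβ0]; ring)⟩
    · by_cases hαδ : α = δ
      · apply hsq
        rw [hm, det2, hγ0, hαδ]
        exact ⟨δ, by ring⟩
      · have hd : δ - α ≠ 0 := fun h' => hαδ (by linear_combination -h')
        refine hfix (β / (δ - α)) (div_ne_zero hβ0 hd) ⟨δ, ?_⟩
        rw [hm, hγ0]
        ext i
        fin_cases i
        · simp [Matrix.mulVec, dotProduct, Fin.sum_univ_two]; field_simp; ring
        · simp [Matrix.mulVec, dotProduct, Fin.sum_univ_two]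
  · by_cases hβ0 : β = 0
    · by_cases hαδ : α = δ
      · apply hsq
        rw [hm, det2, hβ0, hαδ]
        exact ⟨δ, by ring⟩
      · have hd : α - δ ≠ 0 := fun h' => hαδ (by linear_combination h')
        refine hfix ((α - δ) / γ) (div_ne_zero hd hγ0) ⟨α, ?_⟩
        rw [hm, hβ0]
        ext i
        fin_cases i
        · simp [Matrix.mulVec, dotProduct, Fin.sum_univ_two]
        · simp [Matrix.mulVec, dotProduct, Fin.sum_univ_two]; field_simp; ring
    · refine ⟨Units.mk0 (-(β / γ)) (neg_ne_zero.2 (div_ne_zero hβ0 hγ0)), dih _ ?_⟩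
      simp only [Units.val_mk0]
      field_simp
      ring

end Pool.Agent.SpreadPGL
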