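import Mathlib
import Pool.Agent.Lib_MP_9e452d.Defs
import Pool.Agent.Lib_MP_9e452d.Mates
import Pool.Agent.Lib_MP_9e452d.Upper

/-!
# MP_9e452d_al: the spread of `PGL(2, q)` is `q - 3` or `q - 2`
-/

set_option autoImplicit false

namespace Pool.Agent.SpreadPGL

theorem SpreadAtLeast.mono {G : Type*} [Group G] {j k : ℕ} (hjk : j ≤ k) (h : SpreadAtLeast G k) : SpreadAtLeast G j := by
  intro x hx
  rcases Nat.eq_zero_or_pos j with h0 | h0
  · subst h0
    exact ⟨1, fun i => i.elim0⟩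
  · obtain ⟨y, hy⟩ := h (fun i => if hi : (i : ℕ) < j then x ⟨i, hi⟩ else x ⟨0, h0⟩) (by
      intro i
      split_ifs
      · exact hx _
      · exact hx _)
    refine ⟨y, fun i => ?_⟩
    have := hy ⟨i, i.2.trans_le hjk⟩
    simpa using this

open Matrix MatrixGroups

variable {F : Type*} [Field F] [Fintype F]

theorem spread_lower (h2 : ringChar F ≠ 2) (hq : 7 ≤ Fintype.card F) :
    SpreadAtLeast (Matrix.ProjGenLinGroup (Fin 2) F) (Fintype.card F - 3) := by
  classical
  have h2' : (2 : F) ≠ 0 := Ring.two_ne_zero h2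
  intro x hx
  by_contra hcon
  push Not at hcon
  choose g hg using fun i => ProjGenLinGroup.mk_surjective (x i)
  refine core h2 (ι := Fin (Fintype.card F - 3)) (by rw [Fintype.card_fin]; omega)
    (fun i => tl (g i : Matrix (Fin 2) (Fin 2) F)) (fun i => tl_ne h2' _ (by rw [hg]; exact hx i)) ?_ ?_
  · intro z hz
    obtain ⟨y, hy⟩ := exists_y_nonsplit h2 z hz
    obtain ⟨i, hi⟩ := hcon y
    exact ⟨i, hy (g i) (by rw [hg]; exact hx i) (by rw [hg]; exact hi)⟩
  · intro z hz0 hz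
    obtain ⟨y, hy⟩ := exists_y_split h2 hq z hz0 hz
    obtain ⟨i, hi⟩ := hcon y
    exact ⟨i, hy (g i) (by rw [hg]; exact hi)⟩

theorem spread_upper (h2 : ringChar F ≠ 2) :
    ¬ SpreadAtLeast (Matrix.ProjGenLinGroup (Fin 2) F) (Fintype.card F - 1) := by
  classical
  intro h
  have hc : Fintype.card (Fin (Fintype.card F - 1)) = Fintype.card Fˣ := by
    rw [Fintype.card_fin, Fintype.card_units]
  obtain ⟨e⟩ : Nonempty (Fin (Fintype.card F - 1) ≃ Fˣ) := ⟨Fintype.equivOfCardEq hc⟩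
  obtain ⟨y, hy⟩ := h (fun i => ProjGenLinGroup.mk (tt (e i))) (fun i => tt_ne_one _)
  obtain ⟨a, ha⟩ := upper h2 y
  apply ha
  have := hy (e.symm a)
  simpa using this

/-- main theorem -/
theorem main (h2 : ringChar F ≠ 2) (hq : 7 ≤ Fintype.card F) :
    IsSpread (Matrix.ProjGenLinGroup (Fin 2) F) (Fintype.card F - 3) ∨
      IsSpread (Matrix.ProjGenLinGroup (Fin 2) F) (Fintype.card F - 2) := by
  have hub : ∀ k, SpreadAtLeast (Matrix.ProjGenLinGroup (Fin 2) F) k → k ≤ Fintype.card F - 2 := by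
    intro k hk
    by_contra hlt
    exact spread_upper h2 (hk.mono (by omega))
  by_cases h : SpreadAtLeast (Matrix.ProjGenLinGroup (Fin 2) F) (Fintype.card F - 2)
  · exact Or.inr ⟨h, fun k hk => hub k hk⟩
  · refine Or.inl ⟨spread_lower h2 hq, fun k hk => ?_⟩
    have h1 := hub k hk
    by_contra hlt
    exact h (SpreadAtLeast.mono (by omega) hk)

end Pool.Agent.SpreadPGL
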